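import Mathlib
import Pool.Agent.TH559.LE.Bip

/-!
# Edge labellings of bipartite graphs and Galvin's lemma

`labels` labels the edges of a bipartite graph (given as a finite set of ordered pairs): the edges
of a given part `K` get the label `0` and the other edges get labels from `1` to `D - 1`, such that
the labels are distinct at the first ends, and nearly distinct at the second ends. `pick` is
Galvin's lemma with the preferences given by such a labelling.
-/

set_option autoImplicit false

namespace Pool.Agent.NH47.TB

open Finset Pool.Agent.TH559.LE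

theorem card_le_two_parts {A : Type} [DecidableEq A] (S T : Finset A) (p : A → Prop)
    [DecidablePred p] : (S.filter p).card ≤ ((S \ T).filter p).card + (T.filter p).card := by
  refine (card_le_card ?_).trans (card_union_le _ _)
  intro x hx
  rw [mem_filter] at hx
  rw [mem_union, mem_filter, mem_filter, mem_sdiff]
  by_cases h : x ∈ T
  · exact Or.inr ⟨h, hx.2⟩
  · exact Or.inl ⟨⟨hx.1, h⟩, hx.2⟩

/-- The labelling of the edges. -/
theorem labels {V : Type} [Fintype V] [DecidableEq V] (E K : Finset (V × V)) (D : ℕ)
    (h1 : ∀ x, ((E \ K).filter (fun e => e.1 = x)).card + 1 ≤ D)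
    (h2 : ∀ y, (E.filter (fun e => e.2 = y)).card ≤ D)
    (h3 : ∀ e ∈ K, ∀ f ∈ K, e.1 = f.1 → e = f) :
    ∃ l : V × V → ℕ, (∀ e ∈ K, l e = 0) ∧ (∀ e ∈ E, e ∉ K → 1 ≤ l e ∧ l e < D) ∧
      (∀ e ∈ E, ∀ f ∈ E, e.1 = f.1 → l e = l f → e = f) ∧
      ∀ y, ∀ m : ℕ, (E.filter (fun e => e.2 = y ∧ l e ≤ m)).card ≤
        (K.filter (fun e => e.2 = y)).card + m +
          (if ((E \ K).filter (fun e => e.2 = y)).card = D then 1 else 0) := by
  classical
  set R : Finset (V × V) := E \ K with hR
  -- the number of the remaining edges at a second end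
  set r : V → ℕ := fun y => (R.filter (fun e => e.2 = y)).card with hr
  have hrD : ∀ y, r y ≤ D := by
    intro y
    refine (card_le_card ?_).trans (h2 y)
    exact filter_subset_filter _ sdiff_subset
  -- a selected edge at each second end
  have hsp : ∀ y, ∃ x : V, 0 < r y → (x, y) ∈ R := by
    intro y
    by_cases h : 0 < r y
    · obtain ⟨e, he⟩ := card_pos.1 h
      rw [mem_filter] at he
      exact ⟨e.1, fun _ => by rw [← he.2]; exact he.1⟩
    · exact ⟨y, fun h' => absurd h' h⟩
  choose sp hsp using hsp
  set s : V × V → Bool := fun e => decide (r e.2 = D ∧ e.1 = sp e.2) with hs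
  set j : V × V → (V × Bool) × (V × Bool) := fun e => ((e.1, false), (e.2, s e)) with hj
  have hjinj : Function.Injective j := by
    intro e f hef
    simp only [hj, Prod.mk.injEq] at hef
    exact Prod.ext hef.1.1 hef.2.1
  obtain ⟨c, hc1, hc2⟩ := K1 (V := V × Bool) (R.image j) (D - 1) (by
    intro u
    have hu := h1 u.1
    refine le_trans ?_ (Nat.le_sub_of_add_le hu)
    refine (card_le_card (t := (R.filter (fun e => e.1 = u.1)).image j) ?_).trans card_image_le
    intro g hg
    rw [mem_filter, mem_image] at hg
    obtain ⟨⟨e, he, rfl⟩, h4⟩ := hg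
    rw [mem_image]
    refine ⟨e, ?_, rfl⟩
    rw [mem_filter]
    exact ⟨he, by rw [← h4]⟩) (by
    rintro ⟨y, b⟩
    cases b with
    | false =>
      refine (card_le_card (t := (R.filter (fun e => e.2 = y ∧ ¬ (r e.2 = D ∧ e.1 = sp e.2))).image
        j) ?_).trans (card_image_le.trans ?_)
      · intro g hg
        rw [mem_filter, mem_image] at hg
        obtain ⟨⟨e, he, rfl⟩, h4⟩ := hg
        rw [mem_image]
        refine ⟨e, ?_, rfl⟩
        rw [mem_filter]
        simp only [hj, hs, Prod.mk.injEq, decide_eq_false_iff_not] at h4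
        exact ⟨he, h4.1, h4.2⟩
      · by_cases hy : r y = D
        · rcases Nat.eq_zero_or_pos D with hD | hD
          · have h5 := h1 y
            omega
          · have h5 : (R.filter (fun e => e.2 = y ∧ ¬ (r e.2 = D ∧ e.1 = sp e.2))).card < r y := by
              apply card_lt_card
              refine ⟨?_, ?_⟩
              · intro e he
                rw [mem_filter] at he
                exact mem_filter.2 ⟨he.1, he.2.1⟩
              · intro hsub
                have h6 : (sp y, y) ∈ R.filter (fun e => e.2 = y) :=
                  mem_filter.2 ⟨hsp y (by omega), rfl⟩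
                have h7 := hsub h6
                rw [mem_filter] at h7
                exact h7.2.2 ⟨hy, rfl⟩
            omega
        · have h5 : (R.filter (fun e => e.2 = y ∧ ¬ (r e.2 = D ∧ e.1 = sp e.2))).card ≤ r y := by
            apply card_le_card
            intro e he
            rw [mem_filter] at he
            exact mem_filter.2 ⟨he.1, he.2.1⟩
          have h6 := hrD y
          omega
    | true =>
      by_cases hne : (R.filter (fun e => e.2 = y ∧ (r e.2 = D ∧ e.1 = sp e.2))).card = 0
      · refine (card_le_card (t := (R.filter (fun e => e.2 = y ∧ (r e.2 = D ∧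
          e.1 = sp e.2))).image j) ?_).trans (card_image_le.trans (by omega))
        intro g hg
        rw [mem_filter, mem_image] at hg
        obtain ⟨⟨e, he, rfl⟩, h4⟩ := hg
        rw [mem_image]
        refine ⟨e, ?_, rfl⟩
        rw [mem_filter]
        simp only [hj, hs, Prod.mk.injEq, decide_eq_true_eq] at h4
        exact ⟨he, h4.1, h4.2⟩
      · obtain ⟨e0, he0⟩ := card_pos.1 (Nat.pos_of_ne_zero hne)
        rw [mem_filter] at he0
        -- `D` is at least two
        have hD2 : 2 ≤ D := by
          have h5 := h1 e0.1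
          have h6 : 0 < (R.filter (fun e => e.1 = e0.1)).card :=
            card_pos.2 ⟨e0, mem_filter.2 ⟨he0.1, rfl⟩⟩
          omega
        have h5 : ((R.image j).filter (fun e => e.2 = (y, true))).card ≤ 1 := by
          rw [card_le_one]
          intro a ha b hb
          rw [mem_filter, mem_image] at ha hb
          obtain ⟨⟨e, he, rfl⟩, h4⟩ := ha
          obtain ⟨⟨f, hf, rfl⟩, h6⟩ := hb
          simp only [hj, hs, Prod.mk.injEq, decide_eq_true_eq] at h4 h6
          congr 1
          refine Prod.ext ?_ (h4.1.trans h6.1.symm)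
          rw [h4.2.2, h6.2.2, h4.1, h6.1]
        omega)
  refine ⟨fun e => if e ∈ K then 0 else c (j e) + 1, ?_, ?_, ?_, ?_⟩
  · intro e he
    simp [he]
  · intro e he hek
    simp only [hek, if_false]
    have h4 := hc1 (j e) (mem_image_of_mem j (mem_sdiff.2 ⟨he, hek⟩))
    omega
  · intro e he f hf hef hl
    by_cases hek : e ∈ K
    · by_cases hfk : f ∈ K
      · exact h3 e hek f hfk hef
      · simp [hek, hfk] at hl
    · by_cases hfk : f ∈ K
      · simp [hek, hfk] at hl
      · simp only [hek, hfk, if_false, Nat.add_right_cancel_iff] at hl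
        by_contra hne
        exact hc2 (j e) (mem_image_of_mem j (mem_sdiff.2 ⟨he, hek⟩)) (j f)
          (mem_image_of_mem j (mem_sdiff.2 ⟨hf, hfk⟩)) (fun h => hne (hjinj h))
          (Or.inl (by simp only [hj]; rw [hef])) hl
  · intro y m
    refine (card_le_two_parts E K _).trans ?_
    have h4 : (K.filter (fun e => e.2 = y ∧ (if e ∈ K then 0 else c (j e) + 1) ≤ m)).card ≤
        (K.filter (fun e => e.2 = y)).card := by
      apply card_le_card
      intro e he
      rw [mem_filter] at he
      exact mem_filter.2 ⟨he.1, he.2.1⟩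
    have h5 : (R.filter (fun e => e.2 = y ∧ (if e ∈ K then 0 else c (j e) + 1) ≤ m)).card ≤
        m + (if r y = D then 1 else 0) := by
      have h6 : (R.filter (fun e => e.2 = y ∧ (if e ∈ K then 0 else c (j e) + 1) ≤ m)) ⊆
          (R.filter (fun e => e.2 = y ∧ s e = false ∧ c (j e) < m)) ∪
            (R.filter (fun e => e.2 = y ∧ s e = true)) := by
        intro e he
        rw [mem_filter] at he
        rw [mem_union, mem_filter, mem_filter]
        have hek : e ∉ K := (mem_sdiff.1 he.1).2
        have h7 := he.2.2
        simp only [hek, if_false] at h7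
        cases hse : s e with
        | false => exact Or.inl ⟨he.1, he.2.1, rfl, by omega⟩
        | true => exact Or.inr ⟨he.1, he.2.1, rfl⟩
      refine (card_le_card h6).trans ((card_union_le _ _).trans ?_)
      apply Nat.add_le_add
      · have h7 : (R.filter (fun e => e.2 = y ∧ s e = false ∧ c (j e) < m)).card ≤
            (range m).card := by
          apply card_le_card_of_injOn (fun e => c (j e))
          · intro e he
            have he' := mem_filter.1 (mem_coe.1 he)
            exact mem_coe.2 (mem_range.2 he'.2.2.2)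
          · intro e he f hf hef
            have he' := mem_filter.1 (mem_coe.1 he)
            have hf' := mem_filter.1 (mem_coe.1 hf)
            by_contra hne
            refine hc2 (j e) (mem_image_of_mem j he'.1) (j f) (mem_image_of_mem j hf'.1)
              (fun h => hne (hjinj h)) (Or.inr ?_) hef
            simp only [hj]
            rw [he'.2.1, hf'.2.1, he'.2.2.1, hf'.2.2.1]
        rwa [card_range] at h7
      · by_cases hy : r y = D
        · rw [if_pos hy, card_le_one]
          intro a ha b hb
          rw [mem_filter] at ha hb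
          simp only [hs, decide_eq_true_eq] at ha hb
          refine Prod.ext ?_ (ha.2.1.trans hb.2.1.symm)
          rw [ha.2.2.2, hb.2.2.2, ha.2.1, hb.2.1]
        · rw [if_neg hy, Nat.le_zero, card_eq_zero, filter_eq_empty_iff]
          intro a _ ha
          simp only [hs, decide_eq_true_eq] at ha
          exact hy (by rw [← ha.1]; exact ha.2.1)
    have h7 : (if r y = D then 1 else 0) =
        (if ((E \ K).filter (fun e => e.2 = y)).card = D then 1 else 0) := rfl
    refine (Nat.add_le_add h5 h4).trans ?_
    rw [← h7]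
    omega

/-- Galvin's lemma for the preferences given by labels. -/
theorem pick {V C : Type} [Fintype V] [DecidableEq V] [DecidableEq C] [Inhabited C]
    (E : Finset (V × V)) (D : ℕ) (l : V × V → ℕ) (hlD : ∀ e ∈ E, l e < D)
    (hl : ∀ e ∈ E, ∀ f ∈ E, e.1 = f.1 → l e = l f → e = f) (L : V × V → Finset C)
    (hL : ∀ e ∈ E, (E.filter (fun f => f.2 = e.2 ∧ l f ≤ l e)).card + (D - 1 - l e) ≤
      (L e).card) :
    ∃ φ : V × V → C, ∀ e ∈ E, φ e ∈ L e ∧
      ∀ f ∈ E, f ≠ e → φ f = φ e → f.1 ≠ e.1 ∧ f.2 ≠ e.2 := by
  classical
  obtain ⟨n, ⟨ι⟩⟩ := Finite.exists_equiv_fin V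
  have hdiv : ∀ a b a' b' : ℕ, b < n → b' < n → a * n + b = a' * n + b' → a = a' ∧ b = b' := by
    intro a b a' b' hb hb' h
    have hn : 0 < n := by omega
    have e1 : (a * n + b) / n = a := by
      rw [mul_comm, Nat.mul_add_div hn, Nat.div_eq_of_lt hb, add_zero]
    have e2 : (a' * n + b') / n = a' := by
      rw [mul_comm, Nat.mul_add_div hn, Nat.div_eq_of_lt hb', add_zero]
    have e3 : a = a' := by rw [← e1, ← e2, h]
    subst e3
    exact ⟨rfl, by omega⟩
  have hlt : ∀ a b a' b' : ℕ, b < n → b' < n → a * n + b < a' * n + b' → a ≤ a' := by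
    intro a b a' b' hb hb' h
    by_contra hcon
    have h1 : (a' + 1) * n ≤ a * n := Nat.mul_le_mul_right n (by omega)
    have h2 : (a' + 1) * n = a' * n + n := by ring
    omega
  obtain ⟨φ, hφ⟩ := galvin (α := V × V) (V := V) (C := C) Prod.fst Prod.snd
    (fun e => l e * n + (ι e.2).1) (fun e => l e * n + (ι e.1).1) (by
      intro e f h1 h2
      obtain ⟨_, h3⟩ := hdiv _ _ _ _ (ι e.2).2 (ι f.2).2 h2
      exact Prod.ext h1 (ι.injective (Fin.ext h3))) (by
      intro e f h1 h2
      obtain ⟨_, h3⟩ := hdiv _ _ _ _ (ι e.1).2 (ι f.1).2 h2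
      exact Prod.ext (ι.injective (Fin.ext h3)) h1) E.card E L rfl (by
      intro e he
      have hle := hlD e he
      have e1 : (E.filter (fun f => f.1 = e.1 ∧ l e * n + (ι e.2).1 < l f * n + (ι f.2).1)).card ≤
          (Ioo (l e) D).card := by
        apply card_le_card_of_injOn l
        · intro f hf
          have hf' := mem_filter.1 (mem_coe.1 hf)
          have h1 := hlt _ _ _ _ (ι e.2).2 (ι f.2).2 hf'.2.2
          have h2 : l e ≠ l f := by
            intro h
            have h3 := hl e he f hf'.1 hf'.2.1.symm h
            subst h3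
            exact lt_irrefl _ hf'.2.2
          have h3 := hlD f hf'.1
          exact mem_coe.2 (mem_Ioo.2 ⟨by omega, h3⟩)
        · intro f hf g hg hfg
          have hf' := mem_filter.1 (mem_coe.1 hf)
          have hg' := mem_filter.1 (mem_coe.1 hg)
          exact hl f hf'.1 g hg'.1 (hf'.2.1.trans hg'.2.1.symm) hfg
      have e2 : (E.filter (fun f => f.2 = e.2 ∧ l f * n + (ι f.1).1 < l e * n + (ι e.1).1)).card <
          (E.filter (fun f => f.2 = e.2 ∧ l f ≤ l e)).card := by
        apply card_lt_card
        refine ⟨?_, ?_⟩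
        · intro f hf
          rw [mem_filter] at hf
          exact mem_filter.2 ⟨hf.1, hf.2.1, hlt _ _ _ _ (ι f.1).2 (ι e.1).2 hf.2.2⟩
        · intro hsub
          have h1 := hsub (mem_filter.2 ⟨he, rfl, le_rfl⟩)
          rw [mem_filter] at h1
          exact lt_irrefl _ h1.2.2
      have e3 := hL e he
      rw [Nat.card_Ioo] at e1
      omega)
  exact ⟨φ, hφ⟩

end Pool.Agent.NH47.TB
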