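import Mathlib
import Pool.Agent.NH47.Labels
import Pool.Agent.R61.TotExt

/-!
# Extending total colourings of distance-3 matchings in bipartite graphs

`main` is the general extension theorem. The vertices of the side `X` outside the matching get the
colours given by `α`, and every such vertex `x` of degree `Δ` selects a neighbour `σ x`.
-/

set_option autoImplicit false

namespace Pool.Agent.NH47.TB

open Finset Pool.Agent.TH559.LE Pool.Agent.R61.TotExt

theorem card_ge_of_three {C : Type} [Fintype C] [DecidableEq C] (L : Finset C) (a b c : C)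
    (h : ∀ γ, γ ≠ a → γ ≠ b → γ ≠ c → γ ∈ L) : Fintype.card C ≤ L.card + 3 := by
  have h1 : (univ : Finset C) ⊆ L ∪ {a, b, c} := by
    intro γ _
    rw [mem_union]
    by_contra hcon
    push Not at hcon
    simp only [mem_insert, mem_singleton, not_or] at hcon
    exact hcon.1 (h γ hcon.2.1 hcon.2.2.1 hcon.2.2.2)
  have h2 := card_le_card h1
  have h3 := card_union_le L {a, b, c}
  have h4 : ({a, b, c} : Finset C).card ≤ 3 := card_le_three
  rw [card_univ] at h2
  omega

theorem card_ge_of_two {C : Type} [Fintype C] [DecidableEq C] (L : Finset C) (a b : C)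
    (h : ∀ γ, γ ≠ a → γ ≠ b → γ ∈ L) : Fintype.card C ≤ L.card + 2 := by
  have h1 : (univ : Finset C) ⊆ L ∪ {a, b} := by
    intro γ _
    rw [mem_union]
    by_contra hcon
    push Not at hcon
    simp only [mem_insert, mem_singleton, not_or] at hcon
    exact hcon.1 (h γ hcon.2.1 hcon.2.2)
  have h2 := card_le_card h1
  have h3 := card_union_le L {a, b}
  have h4 : ({a, b} : Finset C).card ≤ 2 := card_le_two
  rw [card_univ] at h2
  omega

theorem card_ge_of_one {C : Type} [Fintype C] [DecidableEq C] (L : Finset C) (a : C)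
    (h : ∀ γ, γ ≠ a → γ ∈ L) : Fintype.card C ≤ L.card + 1 := by
  have h1 : (univ : Finset C) ⊆ L ∪ {a} := by
    intro γ _
    rw [mem_union]
    by_contra hcon
    push Not at hcon
    simp only [mem_singleton] at hcon
    exact hcon.1 (h γ hcon.2)
  have h2 := card_le_card h1
  have h3 := card_union_le L {a}
  have h4 : ({a} : Finset C).card = 1 := card_singleton a
  rw [card_univ] at h2
  omega

/-- Covered vertices that are adjacent form an edge of the matching. -/
theorem near_one {V : Type} (G H : SimpleGraph V)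
    (hdist : ∀ u v x y, H.Adj u v → H.Adj x y → s(u, v) ≠ s(x, y) → 3 ≤ G.edist u x) :
    ∀ u v, G.Adj u v → (∃ x, H.Adj u x) → (∃ y, H.Adj v y) → H.Adj u v := by
  rintro u v huv ⟨x, hx⟩ ⟨y, hy⟩
  by_contra hn
  have hne : s(u, x) ≠ s(v, y) := by
    intro h
    rw [Sym2.eq_iff] at h
    rcases h with ⟨h1, h2⟩ | ⟨h1, h2⟩
    · exact huv.ne h1
    · subst h2
      exact hn hx
  have h3 := hdist u x v y hx hy hne
  have h4 : G.edist u v ≤ 1 := by
    have := SimpleGraph.edist_le (SimpleGraph.Walk.cons huv SimpleGraph.Walk.nil)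
    simpa using this
  have h5 : (3 : ℕ∞) ≤ 1 := h3.trans h4
  exact absurd h5 (by decide)

/-- A vertex is adjacent to the vertices of at most one edge of the matching. -/
theorem near_two {V : Type} (G H : SimpleGraph V)
    (hdist : ∀ u v x y, H.Adj u v → H.Adj x y → s(u, v) ≠ s(x, y) → 3 ≤ G.edist u x) :
    ∀ v w z w' z', G.Adj v w → H.Adj w z → G.Adj v w' → H.Adj w' z' →
      s(w, z) = s(w', z') := by
  intro v w z w' z' hvw hwz hvw' hwz'
  by_contra hne
  have h3 := hdist w z w' z' hwz hwz' hne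
  have h4 : G.edist w w' ≤ 2 := by
    have := SimpleGraph.edist_le (SimpleGraph.Walk.cons hvw.symm
      (SimpleGraph.Walk.cons hvw' SimpleGraph.Walk.nil))
    simpa using this
  have h5 : (3 : ℕ∞) ≤ 2 := h3.trans h4
  exact absurd h5 (by decide)

/-- The colour of the edge of the matching near a vertex. -/
theorem near_colour {V C : Type} [Inhabited C] (G H : SimpleGraph V)
    (hdist : ∀ u v x y, H.Adj u v → H.Adj x y → s(u, v) ≠ s(x, y) → 3 ≤ G.edist u x)
    (g0 : Sym2 V → C) :
    ∃ cc : V → C, ∀ v w z, G.Adj v w → H.Adj w z → cc v = g0 s(w, z) := by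
  classical
  refine ⟨fun v => if h : ∃ e : V × V, G.Adj v e.1 ∧ H.Adj e.1 e.2 then
      g0 s((Classical.choose h).1, (Classical.choose h).2) else default, ?_⟩
  intro v w z hvw hwz
  have hex : ∃ e : V × V, G.Adj v e.1 ∧ H.Adj e.1 e.2 := ⟨(w, z), hvw, hwz⟩
  simp only
  rw [dif_pos hex]
  obtain ⟨h1, h2⟩ := Classical.choose_spec hex
  rw [near_two G H hdist v _ _ w z h1 h2 hvw hwz]

/-- The general extension theorem. -/
theorem main {V : Type} [Fintype V] (G H : SimpleGraph V) (Δ : ℕ) (X : V → Prop)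
    (hX : ∀ u v, G.Adj u v → (X u ↔ ¬ X v)) (hΔ0 : 1 ≤ Δ)
    (hΔ : ∀ v, (G.neighborSet v).ncard ≤ Δ) (hHG : H ≤ G)
    (hmatch : ∀ u v w, H.Adj u v → H.Adj u w → v = w)
    (hdist : ∀ u v x y, H.Adj u v → H.Adj x y → s(u, v) ≠ s(x, y) → 3 ≤ G.edist u x)
    (f0 : V → Fin (Δ + 2)) (g0 : Sym2 V → Fin (Δ + 2)) (h0 : IsTotal H f0 g0)
    (α : V → Fin (Δ + 2)) (σ : V → V)
    (hα1 : ∀ x u, X x → (¬ ∃ w, H.Adj x w) → G.Adj x u → (∃ w, H.Adj u w) → α x ≠ f0 u)
    (hα2 : ∀ x y u w, X x → (¬ ∃ w, H.Adj x w) → (¬ ∃ w, H.Adj y w) → G.Adj x y → G.Adj y u →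
      H.Adj u w → α x ≠ g0 s(u, w))
    (P : V → Prop) (hP : ∀ x, P x ↔ (X x ∧ (¬ ∃ w, H.Adj x w) ∧ (G.neighborSet x).ncard = Δ))
    (hσ1 : ∀ x, P x → G.Adj x (σ x) ∧ ¬ ∃ w, H.Adj (σ x) w)
    (hσ2 : ∀ x x' x'', P x → P x' → P x'' → x ≠ x' → x ≠ x'' → x' ≠ x'' → σ x = σ x' →
      σ x ≠ σ x'')
    (hσ3 : ∀ x x', P x → P x' → x ≠ x' → σ x = σ x' → ∀ u, G.Adj (σ x) u →
      (¬ ∃ w, H.Adj u w) ∧ α u = α x) :
    ∃ (f : V → Fin (Δ + 2)) (g : Sym2 V → Fin (Δ + 2)), IsTotal G f g ∧
      ∀ u v, H.Adj u v → f u = f0 u ∧ g s(u, v) = g0 s(u, v) := by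
  classical
  have hΔ' : ∀ v, dg G v ≤ Δ := hΔ
  have hA := near_one G H hdist
  have hB := near_two G H hdist
  obtain ⟨cc, hcc⟩ := near_colour G H hdist g0
  set D : V → Prop := fun v => ∃ w, H.Adj v w with hD
  -- the vertex colours
  obtain ⟨f1, hf1, hf1G⟩ := vext G (fun v => if D v then f0 v else if X v then α v else cc v)
    (fun v => D v ∨ X v ∨ ∃ u, G.Adj v u ∧ D u) (by
      have hhalf : ∀ u v, (D u ∨ X u ∨ ∃ w, G.Adj u w ∧ D w) →
          (D v ∨ X v ∨ ∃ w, G.Adj v w ∧ D w) → G.Adj u v → X u →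
          (fun v => if D v then f0 v else if X v then α v else cc v) u ≠
          (fun v => if D v then f0 v else if X v then α v else cc v) v := by
        intro u v _ hv huv hXu
        have hXv : ¬ X v := (hX u v huv).1 hXu
        simp only
        by_cases hDu : D u
        · rw [if_pos hDu]
          by_cases hDv : D v
          · rw [if_pos hDv]
            exact h0.1 u v (hA u v huv hDu hDv)
          · rw [if_neg hDv, if_neg hXv]
            obtain ⟨w, hw⟩ := hDu
            rw [hcc v u w huv.symm hw]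
            exact (h0.2.2 u w hw).symm
        · rw [if_neg hDu, if_pos hXu]
          by_cases hDv : D v
          · rw [if_pos hDv]
            exact hα1 u v hXu hDu huv hDv
          · rw [if_neg hDv, if_neg hXv]
            obtain ⟨w, hvw, z, hz⟩ := (hv.resolve_left hDv).resolve_left hXv
            rw [hcc v w z hvw hz]
            exact hα2 u v w z hXu hDu hDv huv hvw hz
      intro u v hu hv huv
      by_cases hXu : X u
      · exact hhalf u v hu hv huv hXu
      · have hXv : X v := by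
          by_contra h
          exact hXu ((hX u v huv).2 h)
        exact (hhalf v u hv hu huv.symm hXv).symm) (fun v => by have := hΔ' v; omega)
  have hfD : ∀ v, D v → f1 v = f0 v := by
    intro v hv
    rw [hf1 v (Or.inl hv), if_pos hv]
  have hfX : ∀ v, ¬ D v → X v → f1 v = α v := by
    intro v hv hXv
    rw [hf1 v (Or.inr (Or.inl hXv)), if_neg hv, if_pos hXv]
  have hfY : ∀ v w z, ¬ D v → ¬ X v → G.Adj v w → H.Adj w z → f1 v = g0 s(w, z) := by
    intro v w z hv hXv hvw hwz
    rw [hf1 v (Or.inr (Or.inr ⟨w, hvw, z, hwz⟩)), if_neg hv, if_neg hXv, hcc v w z hvw hwz]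
  -- the edges
  set E : Finset (V × V) := univ.filter (fun e => X e.1 ∧ G.Adj e.1 e.2 ∧ ¬ H.Adj e.1 e.2) with hE
  have hEm : ∀ x y, (x, y) ∈ E ↔ X x ∧ G.Adj x y ∧ ¬ H.Adj x y := by
    intro x y
    simp [hE]
  set K : Finset (V × V) := univ.filter (fun e => P e.1 ∧ e.2 = σ e.1) with hK
  have hKm : ∀ x y, (x, y) ∈ K ↔ P x ∧ y = σ x := by
    intro x y
    simp [hK]
  have hKE : K ⊆ E := by
    rintro ⟨x, y⟩ he
    rw [hKm] at he
    obtain ⟨h1, rfl⟩ := he
    rw [hEm]
    refine ⟨((hP x).1 h1).1, (hσ1 x h1).1, fun h => (hσ1 x h1).2 ⟨x, h.symm⟩⟩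
  have hrow : ∀ (S : Finset (V × V)) (x : V), S ⊆ E →
      (S.filter (fun e => e.1 = x)).card = (univ.filter (fun w => (x, w) ∈ S)).card := by
    intro S x _
    symm
    apply card_bij (fun w _ => (x, w))
    · intro w hw
      rw [mem_filter] at hw ⊢
      exact ⟨hw.2, rfl⟩
    · intro a _ b _ h
      exact (Prod.mk.inj h).2
    · rintro ⟨a, b⟩ h
      rw [mem_filter] at h
      obtain ⟨h1, h2⟩ := h
      simp only at h2
      subst h2
      exact ⟨b, mem_filter.2 ⟨mem_univ _, h1⟩, rfl⟩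
  have hcol : ∀ (S : Finset (V × V)) (y : V), S ⊆ E →
      (S.filter (fun e => e.2 = y)).card = (univ.filter (fun w => (w, y) ∈ S)).card := by
    intro S x _
    symm
    apply card_bij (fun w _ => (w, x))
    · intro w hw
      rw [mem_filter] at hw ⊢
      exact ⟨hw.2, rfl⟩
    · intro a _ b _ h
      exact (Prod.mk.inj h).1
    · rintro ⟨a, b⟩ h
      rw [mem_filter] at h
      obtain ⟨h1, h2⟩ := h
      simp only at h2
      subst h2
      exact ⟨a, mem_filter.2 ⟨mem_univ _, h1⟩, rfl⟩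
  have hdgE1 : ∀ x, (univ.filter (fun w => (x, w) ∈ E)) ⊆ univ.filter (fun w => G.Adj x w) := by
    intro x w hw
    rw [mem_filter, hEm] at hw
    rw [mem_filter]
    exact ⟨mem_univ _, hw.2.2.1⟩
  have hdgE2 : ∀ x, (univ.filter (fun w => (w, x) ∈ E)) ⊆ univ.filter (fun w => G.Adj x w) := by
    intro x w hw
    rw [mem_filter, hEm] at hw
    rw [mem_filter]
    exact ⟨mem_univ _, hw.2.2.1.symm⟩
  have hcolE : ∀ y, (E.filter (fun e => e.2 = y)).card ≤ Δ := by
    intro y
    rw [hcol E y (Subset.refl _)]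
    refine (card_le_card (hdgE2 y)).trans ?_
    rw [← dg_eq]
    exact hΔ' y
  have hcolD : ∀ y, D y → (E.filter (fun e => e.2 = y)).card + 1 ≤ Δ := by
    rintro y ⟨z, hz⟩
    rw [hcol E y (Subset.refl _)]
    have h1 : (univ.filter (fun w => (w, y) ∈ E)).card < (univ.filter (fun w => G.Adj y w)).card := by
      apply card_lt_card
      refine ⟨hdgE2 y, fun hsub => ?_⟩
      have h2 := hsub (mem_filter.2 ⟨mem_univ z, hHG hz⟩)
      rw [mem_filter, hEm] at h2
      exact h2.2.2.2 hz.symm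
    rw [← dg_eq] at h1
    have h2 := hΔ' y
    omega
  have hKcol : ∀ y, (K.filter (fun e => e.2 = y)).card +
      ((E \ K).filter (fun e => e.2 = y)).card ≤ (E.filter (fun e => e.2 = y)).card := by
    intro y
    rw [← card_union_of_disjoint]
    · apply card_le_card
      intro e he
      rw [mem_filter]
      rcases mem_union.1 he with he | he
      · exact ⟨hKE (mem_filter.1 he).1, (mem_filter.1 he).2⟩
      · exact ⟨(mem_sdiff.1 (mem_filter.1 he).1).1, (mem_filter.1 he).2⟩
    · rw [disjoint_left]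
      intro e he he'
      exact (mem_sdiff.1 (mem_filter.1 he').1).2 (mem_filter.1 he).1
  obtain ⟨l, hl0, hl1, hlinj, hlN⟩ := labels E K Δ (by
    intro x
    rw [hrow (E \ K) x sdiff_subset]
    by_cases hXx : X x
    · by_cases hDx : D x
      · obtain ⟨z, hz⟩ := hDx
        have h1 : (univ.filter (fun w => (x, w) ∈ E \ K)).card <
            (univ.filter (fun w => G.Adj x w)).card := by
          apply card_lt_card
          refine ⟨?_, fun hsub => ?_⟩
          · intro w hw
            rw [mem_filter, mem_sdiff, hEm] at hw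
            exact mem_filter.2 ⟨mem_univ _, hw.2.1.2.1⟩
          · have h2 := hsub (mem_filter.2 ⟨mem_univ z, hHG hz⟩)
            rw [mem_filter, mem_sdiff, hEm] at h2
            exact h2.2.1.2.2 hz
        rw [← dg_eq] at h1
        have h2 := hΔ' x
        omega
      · by_cases hd : dg G x = Δ
        · have hPx : P x := (hP x).2 ⟨hXx, hDx, hd⟩
          have h1 : (univ.filter (fun w => (x, w) ∈ E \ K)).card <
              (univ.filter (fun w => G.Adj x w)).card := by
            apply card_lt_card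
            refine ⟨?_, fun hsub => ?_⟩
            · intro w hw
              rw [mem_filter, mem_sdiff, hEm] at hw
              exact mem_filter.2 ⟨mem_univ _, hw.2.1.2.1⟩
            · have h2 := hsub (mem_filter.2 ⟨mem_univ (σ x), (hσ1 x hPx).1⟩)
              rw [mem_filter, mem_sdiff, hKm] at h2
              exact h2.2.2 ⟨hPx, rfl⟩
          rw [← dg_eq] at h1
          omega
        · have h1 : (univ.filter (fun w => (x, w) ∈ E \ K)).card ≤
              (univ.filter (fun w => G.Adj x w)).card := by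
            apply card_le_card
            intro w hw
            rw [mem_filter, mem_sdiff, hEm] at hw
            exact mem_filter.2 ⟨mem_univ _, hw.2.1.2.1⟩
          rw [← dg_eq] at h1
          have h2 := hΔ' x
          omega
    · have h1 : (univ.filter (fun w => (x, w) ∈ E \ K)) = ∅ := by
        rw [filter_eq_empty_iff]
        intro w _ hw
        rw [mem_sdiff, hEm] at hw
        exact hXx hw.1.1
      rw [h1, card_empty]
      omega) hcolE (by
    rintro ⟨x, y⟩ he ⟨x', y'⟩ he' h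
    rw [hKm] at he he'
    simp only at h
    subst h
    rw [he.2, he'.2])
  have hlΔ : ∀ e ∈ E, l e < Δ := by
    intro e he
    by_cases hek : e ∈ K
    · rw [hl0 e hek]
      omega
    · exact (hl1 e he hek).2
  -- double vertices
  set dbl : V → Prop := fun y => 2 ≤ (K.filter (fun e => e.2 = y)).card with hdbl
  have hdbl1 : ∀ y, dbl y → ∃ x x', P x ∧ P x' ∧ x ≠ x' ∧ σ x = y ∧ σ x' = y := by
    intro y hy
    obtain ⟨⟨a, b⟩, ha, ⟨c, d⟩, hc, hne⟩ := one_lt_card.1 hy
    rw [mem_filter, hKm] at ha hc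
    obtain ⟨⟨ha1, ha2⟩, ha3⟩ := ha
    obtain ⟨⟨hc1, hc2⟩, hc3⟩ := hc
    simp only at ha3 hc3
    refine ⟨a, c, ha1, hc1, ?_, by rw [← ha2, ha3], by rw [← hc2, hc3]⟩
    rintro rfl
    exact hne (by rw [ha3, hc3])
  have hdbl2 : ∀ y, (K.filter (fun e => e.2 = y)).card ≤ 2 := by
    intro y
    by_contra hcon
    push Not at hcon
    obtain ⟨⟨a, b⟩, ha, ⟨c, d⟩, hc, ⟨e, f⟩, he, h1, h2, h3⟩ := two_lt_card.1 hcon
    rw [mem_filter, hKm] at ha hc he
    obtain ⟨⟨ha1, ha2⟩, ha3⟩ := ha
    obtain ⟨⟨hc1, hc2⟩, hc3⟩ := hc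
    obtain ⟨⟨he1, he2⟩, he3⟩ := he
    simp only at ha3 hc3 he3
    refine hσ2 a c e ha1 hc1 he1 ?_ ?_ ?_ ?_ ?_
    · rintro rfl
      exact h1 (by rw [ha3, hc3])
    · rintro rfl
      exact h2 (by rw [ha3, he3])
    · rintro rfl
      exact h3 (by rw [hc3, he3])
    · rw [← ha2, ← hc2, ha3, hc3]
    · rw [← ha2, ← he2, ha3, he3]
  have hdblN : ∀ y, dbl y → ∃ γ, (∀ u, G.Adj y u → ¬ D u ∧ X u ∧ α u = γ) ∧ ¬ D y := by
    intro y hy
    obtain ⟨x, x', h1, h2, h3, h4, h5⟩ := hdbl1 y hy
    refine ⟨α x, ?_, ?_⟩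
    · intro u hu
      have h6 := hσ3 x x' h1 h2 h3 (h4.trans h5.symm) u (by rw [h4]; exact hu)
      refine ⟨h6.1, ?_, h6.2⟩
      have h7 := (hσ1 x h1).1
      rw [h4] at h7
      have h8 := (hX x y h7).1 ((hP x).1 h1).1
      by_contra h9
      exact h8 ((hX y u hu).2 h9)
    · rw [← h4]
      exact (hσ1 x h1).2
  -- the lists
  set L : V × V → Finset (Fin (Δ + 2)) := fun e => univ.filter (fun γ =>
    γ ≠ f1 e.1 ∧ (¬ dbl e.2 → γ ≠ f1 e.2) ∧ (∀ w, H.Adj e.1 w → γ ≠ g0 s(e.1, w)) ∧
      ∀ w, H.Adj e.2 w → γ ≠ g0 s(e.2, w)) with hL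
  have hLm : ∀ x y γ, γ ∈ L (x, y) ↔ (γ ≠ f1 x ∧ (¬ dbl y → γ ≠ f1 y) ∧
      (∀ w, H.Adj x w → γ ≠ g0 s(x, w)) ∧ ∀ w, H.Adj y w → γ ≠ g0 s(y, w)) := by
    intro x y γ
    simp [hL]
  obtain ⟨φ, hφ⟩ := pick E Δ l hlΔ hlinj L (by
    rintro ⟨x, y⟩ he
    have he' := (hEm x y).1 he
    obtain ⟨hXx, hxy, hnH⟩ := he'
    have hXy : ¬ X y := (hX x y hxy).1 hXx
    have hN := hlN y (l (x, y))
    have hlt := hlΔ _ he
    have hs := hKcol y
    have hc := hcolE y
    have hcard : Fintype.card (Fin (Δ + 2)) = Δ + 2 := Fintype.card_fin _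
    simp only
    by_cases hDy : D y
    · have hDx : ¬ D x := fun h => hnH (hA x y hxy h hDy)
      have hK0 : (K.filter (fun e => e.2 = y)).card = 0 := by
        rw [card_eq_zero, filter_eq_empty_iff]
        rintro ⟨a, b⟩ hab h
        rw [hKm] at hab
        simp only at h
        apply (hσ1 a hab.1).2
        rw [← hab.2, h]
        exact hDy
      have hR0 : ((E \ K).filter (fun e => e.2 = y)).card ≠ Δ := by
        have := hcolD y hDy
        omega
      rw [if_neg hR0, hK0] at hN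
      obtain ⟨w, hw⟩ := hDy
      have h3 := card_ge_of_three (L (x, y)) (f1 x) (f1 y) (g0 s(y, w)) (by
        intro γ h1 h2 h3
        rw [hLm]
        refine ⟨h1, fun _ => h2, fun z hz => absurd ⟨z, hz⟩ hDx, ?_⟩
        intro z hz
        rw [hmatch y z w hz hw]
        exact h3)
      omega
    · by_cases hdb : dbl y
      · obtain ⟨γ0, h1, _⟩ := hdblN y hdb
        have h2 := h1 x hxy.symm
        have hK2 := hdbl2 y
        have hR0 : ((E \ K).filter (fun e => e.2 = y)).card ≠ Δ := by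
          have : 2 ≤ (K.filter (fun e => e.2 = y)).card := hdb
          omega
        rw [if_neg hR0] at hN
        have h3 := card_ge_of_one (L (x, y)) (f1 x) (by
          intro γ h1
          rw [hLm]
          exact ⟨h1, fun h => absurd hdb h, fun z hz => absurd ⟨z, hz⟩ h2.1,
            fun z hz => absurd ⟨z, hz⟩ hDy⟩)
        omega
      · have hK1 : (K.filter (fun e => e.2 = y)).card ≤ 1 := by
          have : ¬ 2 ≤ (K.filter (fun e => e.2 = y)).card := hdb
          omega
        have hN' : (E.filter (fun e => e.2 = y ∧ l e ≤ l (x, y))).card ≤ l (x, y) + 1 := by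
          split_ifs at hN with h <;> omega
        have h3 : Fintype.card (Fin (Δ + 2)) ≤ (L (x, y)).card + 2 := by
          by_cases hDx : D x
          · obtain ⟨z, hz⟩ := hDx
            apply card_ge_of_two (L (x, y)) (f1 x) (f1 y)
            intro γ h1 h2
            rw [hLm]
            refine ⟨h1, fun _ => h2, ?_, fun w hw => absurd ⟨w, hw⟩ hDy⟩
            intro w hw
            rw [← hfY y x w hDy hXy hxy.symm hw]
            exact h2
          · apply card_ge_of_two (L (x, y)) (f1 x) (f1 y)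
            intro γ h1 h2
            rw [hLm]
            exact ⟨h1, fun _ => h2, fun w hw => absurd ⟨w, hw⟩ hDx,
              fun w hw => absurd ⟨w, hw⟩ hDy⟩
        omega)
  -- the colouring of the edges
  set g : Sym2 V → Fin (Δ + 2) := fun z => if z ∈ H.edgeSet then g0 z else
    if h : ∃ e : V × V, e ∈ E ∧ z = s(e.1, e.2) then φ (Classical.choose h) else g0 z with hg
  have hgH : ∀ u v, H.Adj u v → g s(u, v) = g0 s(u, v) := by
    intro u v huv
    simp only [hg]
    rw [if_pos ((SimpleGraph.mem_edgeSet H).2 huv)]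
  have hgE : ∀ x y, (x, y) ∈ E → g s(x, y) = φ (x, y) := by
    intro x y hxy
    have h1 := (hEm x y).1 hxy
    have hex : ∃ e : V × V, e ∈ E ∧ s(x, y) = s(e.1, e.2) := ⟨(x, y), hxy, rfl⟩
    simp only [hg]
    rw [if_neg (fun h => h1.2.2 ((SimpleGraph.mem_edgeSet H).1 h)), dif_pos hex]
    have h2 := Classical.choose_spec hex
    congr 1
    generalize Classical.choose hex = e at h2
    obtain ⟨h3, h4⟩ := h2
    obtain ⟨a, b⟩ := e
    have h5 := (hEm a b).1 h3
    simp only [Sym2.eq_iff] at h4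
    rcases h4 with ⟨rfl, rfl⟩ | ⟨rfl, rfl⟩
    · rfl
    · exact absurd h5.1 ((hX x y h1.2.1).1 h1.1)
  -- an edge outside the matching, with its end in `X`
  have horient : ∀ u v, G.Adj u v → ¬ H.Adj u v → (X u ∧ (u, v) ∈ E) ∨ (¬ X u ∧ (v, u) ∈ E) := by
    intro u v huv hn
    by_cases hXu : X u
    · exact Or.inl ⟨hXu, (hEm u v).2 ⟨hXu, huv, hn⟩⟩
    · right
      refine ⟨hXu, (hEm v u).2 ⟨?_, huv.symm, fun h => hn h.symm⟩⟩
      by_contra h
      exact hXu ((hX u v huv).2 h)
  have hgL : ∀ u v, G.Adj u v → ¬ H.Adj u v → (¬ dbl u → g s(u, v) ≠ f1 u) ∧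
      ∀ w, H.Adj u w → g s(u, v) ≠ g0 s(u, w) := by
    intro u v huv hn
    rcases horient u v huv hn with ⟨hXu, h1⟩ | ⟨hXu, h1⟩
    · rw [hgE u v h1]
      have h2 := (hφ _ h1).1
      rw [hLm] at h2
      exact ⟨fun _ => h2.1, h2.2.2.1⟩
    · rw [Sym2.eq_swap, hgE v u h1]
      have h2 := (hφ _ h1).1
      rw [hLm] at h2
      exact ⟨h2.2.1, h2.2.2.2⟩
  have hproper : ∀ u v w, G.Adj u v → G.Adj u w → v ≠ w → g s(u, v) ≠ g s(u, w) := by
    intro u v w huv huw hne
    by_cases h1 : H.Adj u v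
    · by_cases h2 : H.Adj u w
      · exact absurd (hmatch u v w h1 h2) hne
      · rw [hgH u v h1]
        exact ((hgL u w huw h2).2 v h1).symm
    · by_cases h2 : H.Adj u w
      · rw [hgH u w h2]
        exact (hgL u v huv h1).2 w h2
      · rcases horient u v huv h1 with ⟨hXu, h3⟩ | ⟨hXu, h3⟩
        · rcases horient u w huw h2 with ⟨_, h4⟩ | ⟨h5, _⟩
          · rw [hgE u v h3, hgE u w h4]
            intro heq
            exact ((hφ _ h4).2 _ h3 (fun h => hne (Prod.mk.inj h).2) heq).1 rfl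
          · exact absurd hXu h5
        · rcases horient u w huw h2 with ⟨h5, _⟩ | ⟨_, h4⟩
          · exact absurd h5 hXu
          · rw [Sym2.eq_swap, hgE v u h3, Sym2.eq_swap (a := u) (b := w), hgE w u h4]
            intro heq
            exact ((hφ _ h4).2 _ h3 (fun h => hne (Prod.mk.inj h).1) heq).2 rfl
  -- the colours of the double vertices
  have hlast : ∀ y, ∃ γ : Fin (Δ + 2), dbl y → (∀ u, G.Adj y u → γ ≠ f1 u ∧ γ ≠ g s(y, u)) := by
    intro y
    by_cases hy : dbl y
    · obtain ⟨γ0, h1, hDy⟩ := hdblN y hy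
      have hcard : (insert γ0 ((univ.filter (fun w => G.Adj y w)).image
          (fun w => g s(y, w)))).card < (univ : Finset (Fin (Δ + 2))).card := by
        rw [card_univ, Fintype.card_fin]
        have h2 := card_insert_le γ0 ((univ.filter (fun w => G.Adj y w)).image
          (fun w => g s(y, w)))
        have h3 : ((univ.filter (fun w => G.Adj y w)).image (fun w => g s(y, w))).card ≤
            (univ.filter (fun w => G.Adj y w)).card := card_image_le
        rw [← dg_eq] at h3
        have h4 := hΔ' y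
        omega
      obtain ⟨γ, _, hγ⟩ := exists_mem_notMem_of_card_lt_card hcard
      refine ⟨γ, fun _ u hu => ⟨?_, ?_⟩⟩
      · rintro rfl
        apply hγ
        rw [hfX u (h1 u hu).1 (h1 u hu).2.1, (h1 u hu).2.2]
        exact mem_insert_self _ _
      · rintro rfl
        exact hγ (mem_insert_of_mem (mem_image.2 ⟨u, by simpa using hu, rfl⟩))
    · exact ⟨0, fun h => absurd h hy⟩
  choose lc hlc using hlast
  have hdblX : ∀ y u, dbl y → G.Adj y u → ¬ dbl u := by
    intro y u hy hyu hu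
    obtain ⟨_, h1, _⟩ := hdblN y hy
    obtain ⟨_, h2, _⟩ := hdblN u hu
    exact (hX y u hyu).1 (h2 y hyu.symm).2.1 (h1 u hyu).2.1
  refine ⟨fun v => if dbl v then lc v else f1 v, g, ⟨?_, hproper, ?_⟩, ?_⟩
  · intro u v huv
    simp only
    by_cases hu : dbl u
    · rw [if_pos hu, if_neg (hdblX u v hu huv)]
      exact (hlc u hu v huv).1
    · by_cases hv : dbl v
      · rw [if_neg hu, if_pos hv]
        exact ((hlc v hv u huv.symm).1).symm
      · rw [if_neg hu, if_neg hv]
        exact hf1G u v huv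
  · intro u v huv
    simp only
    by_cases hu : dbl u
    · rw [if_pos hu]
      exact ((hlc u hu v huv).2).symm
    · rw [if_neg hu]
      by_cases h1 : H.Adj u v
      · rw [hgH u v h1, hfD u ⟨v, h1⟩]
        exact h0.2.2 u v h1
      · exact (hgL u v huv h1).1 hu
  · intro u v huv
    have hu : ¬ dbl u := by
      intro hu
      obtain ⟨_, _, h1⟩ := hdblN u hu
      exact h1 ⟨v, huv⟩
    refine ⟨?_, hgH u v huv⟩
    simp only
    rw [if_neg hu, hfD u ⟨v, huv⟩]

end Pool.Agent.NH47.TB
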