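import Mathlib
import Pool.Agent.NH47.TotMain

/-!
# Selecting neighbours for the vertices of maximum degree
-/

set_option autoImplicit false

namespace Pool.Agent.NH47.TB

open Finset Pool.Agent.TH559.LE Pool.Agent.R61.TotExt

/-- In a bipartite graph, the vertices of degree `Δ` of the side `X` outside the matching select
neighbours outside the matching, such that a vertex is selected at most twice, and at most once if
it is adjacent to a vertex of the matching. -/
theorem select_two {V : Type} [Fintype V] (G H : SimpleGraph V) (Δ : ℕ) (X : V → Prop)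
    (hX : ∀ u v, G.Adj u v → (X u ↔ ¬ X v)) (hΔ0 : 1 ≤ Δ)
    (hΔ : ∀ v, (G.neighborSet v).ncard ≤ Δ) (hHG : H ≤ G)
    (hB : ∀ v w z w' z', G.Adj v w → H.Adj w z → G.Adj v w' → H.Adj w' z' →
      s(w, z) = s(w', z'))
    (P : V → Prop) (hP : ∀ x, P x ↔ (X x ∧ (¬ ∃ w, H.Adj x w) ∧ (G.neighborSet x).ncard = Δ)) :
    ∃ σ : V → V, (∀ x, P x → G.Adj x (σ x) ∧ ¬ ∃ w, H.Adj (σ x) w) ∧
      (∀ x x' x'', P x → P x' → P x'' → x ≠ x' → x ≠ x'' → x' ≠ x'' → σ x = σ x' →
        σ x ≠ σ x'') ∧
      ∀ x x', P x → P x' → x ≠ x' → σ x = σ x' → ∀ u, G.Adj (σ x) u → ¬ ∃ w, H.Adj u w := by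
  classical
  have hΔ' : ∀ v, dg G v ≤ Δ := hΔ
  set D : V → Prop := fun v => ∃ w, H.Adj v w with hD
  set nr : V → Prop := fun v => ∃ u, G.Adj v u ∧ D u with hnr
  set t : {x // P x} → Finset (V × Bool) := fun x =>
    univ.filter (fun z => G.Adj x.1 z.1 ∧ ¬ D z.1 ∧ (z.2 = true → ¬ nr z.1)) with ht
  -- each vertex of `P` has at most one neighbour in the matching
  have hfew : ∀ v, P v → Δ ≤ (univ.filter (fun w => G.Adj v w ∧ ¬ D w)).card + 1 := by
    intro v hv
    have hd : dg G v = Δ := ((hP v).1 hv).2.2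
    rw [dg_eq] at hd
    have h1 : (univ.filter (fun w => G.Adj v w ∧ D w)).card ≤ 1 := by
      rw [card_le_one]
      intro a ha b hb
      rw [mem_filter] at ha hb
      obtain ⟨_, ha1, z, hz⟩ := ha
      obtain ⟨_, hb1, z', hz'⟩ := hb
      have h3 := hB v a z b z' ha1 hz hb1 hz'
      rw [Sym2.eq_iff] at h3
      rcases h3 with h3 | h3
      · exact h3.1
      · exfalso
        have h4 : G.Adj a b := by
          have := hHG hz
          rwa [h3.2] at this
        have e1 := hX v a ha1
        have e2 := hX v b hb1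
        have e3 := hX a b h4
        tauto
    have h3 : (univ.filter (fun w => G.Adj v w)) =
        (univ.filter (fun w => G.Adj v w ∧ ¬ D w)) ∪ (univ.filter (fun w => G.Adj v w ∧ D w)) := by
      ext w
      simp only [mem_union, mem_filter, mem_univ, true_and]
      tauto
    have h4 := card_union_le (univ.filter (fun w => G.Adj v w ∧ ¬ D w))
      (univ.filter (fun w => G.Adj v w ∧ D w))
    rw [← h3] at h4
    omega
  have hall : ∀ S : Finset {x // P x}, S.card ≤ (S.biUnion t).card := by
    intro S
    rcases Nat.lt_or_ge Δ 2 with hΔ2 | hΔ2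
    · -- `Δ = 1`
      have hΔ1 : Δ = 1 := by omega
      have hex : ∀ x : {x // P x}, ∃ y, G.Adj x.1 y ∧ ¬ D y := by
        intro x
        have h1 : dg G x.1 = Δ := ((hP x.1).1 x.2).2.2
        have h2 : 0 < (univ.filter (fun w => G.Adj x.1 w)).card := by
          rw [← dg_eq]
          omega
        obtain ⟨y, hy⟩ := card_pos.1 h2
        rw [mem_filter] at hy
        refine ⟨y, hy.2, ?_⟩
        rintro ⟨z, hz⟩
        have h3 : ({x.1, z} : Finset V) ⊆ univ.filter (fun w => G.Adj y w) := by
          intro w hw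
          rw [mem_insert, mem_singleton] at hw
          rw [mem_filter]
          rcases hw with rfl | rfl
          · exact ⟨mem_univ _, hy.2.symm⟩
          · exact ⟨mem_univ _, hHG hz⟩
        have h4 := card_le_card h3
        rw [← dg_eq, card_pair] at h4
        · have := hΔ' y
          omega
        · rintro rfl
          exact ((hP x.1).1 x.2).2.1 ⟨y, hz.symm⟩
      choose y hy using hex
      have hinj : ∀ a b : {x // P x}, y a = y b → a = b := by
        intro a b hab
        by_contra hne
        have h3 : ({a.1, b.1} : Finset V) ⊆ univ.filter (fun w => G.Adj (y a) w) := by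
          intro w hw
          rw [mem_insert, mem_singleton] at hw
          rw [mem_filter]
          rcases hw with rfl | rfl
          · exact ⟨mem_univ _, (hy a).1.symm⟩
          · rw [hab]
            exact ⟨mem_univ _, (hy b).1.symm⟩
        have h4 := card_le_card h3
        rw [← dg_eq, card_pair (fun h => hne (Subtype.ext h))] at h4
        have := hΔ' (y a)
        omega
      apply card_le_card_of_injOn (fun x => (y x, false))
      · intro x hx
        rw [mem_coe] at hx
        rw [mem_coe, mem_biUnion]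
        refine ⟨x, hx, ?_⟩
        simp only [ht, mem_filter, mem_univ, true_and]
        exact ⟨(hy x).1, (hy x).2, fun h => by simp at h⟩
      · intro a _ b _ hab
        exact hinj a b (Prod.mk.inj hab).1
    · -- `Δ ≥ 2`
      set N : Finset V := univ.filter (fun y => ¬ D y ∧ ∃ x ∈ S, G.Adj x.1 y) with hN
      have e0 : (Δ - 1) * S.card ≤ ∑ x ∈ S, (N.filter (fun y => G.Adj x.1 y)).card := by
        rw [mul_comm, ← smul_eq_mul, ← sum_const]
        apply sum_le_sum
        intro x hx
        have h1 := hfew x.1 x.2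
        have h2 : (univ.filter (fun w => G.Adj x.1 w ∧ ¬ D w)) ⊆
            N.filter (fun y => G.Adj x.1 y) := by
          intro w hw
          rw [mem_filter] at hw
          rw [mem_filter, hN, mem_filter]
          exact ⟨⟨mem_univ _, hw.2.2, x, hx, hw.2.1⟩, hw.2.1⟩
        have h3 := card_le_card h2
        omega
      have e1 : ∑ x ∈ S, (N.filter (fun y => G.Adj x.1 y)).card =
          ∑ y ∈ N, (S.filter (fun x => G.Adj x.1 y)).card := by
        simp_rw [card_filter]
        exact sum_comm
      have e2 : ∀ y ∈ N, (S.filter (fun x => G.Adj x.1 y)).card ≤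
          (Δ - 1) * ((S.biUnion t).filter (fun z => z.1 = y)).card := by
        intro y hy
        rw [hN, mem_filter] at hy
        obtain ⟨_, hDy, x, hx, hxy⟩ := hy
        have h1 : ((S.filter (fun x => G.Adj x.1 y)).image (fun x => x.1)) ⊆
            univ.filter (fun w => G.Adj y w) := by
          intro w hw
          rw [mem_image] at hw
          obtain ⟨a, ha, rfl⟩ := hw
          rw [mem_filter] at ha
          exact mem_filter.2 ⟨mem_univ _, ha.2.symm⟩
        have h2 : ((S.filter (fun x => G.Adj x.1 y)).image (fun x => x.1)).card =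
            (S.filter (fun x => G.Adj x.1 y)).card :=
          card_image_of_injective _ Subtype.val_injective
        have h3 : (y, false) ∈ (S.biUnion t).filter (fun z => z.1 = y) := by
          rw [mem_filter, mem_biUnion]
          refine ⟨⟨x, hx, ?_⟩, rfl⟩
          simp only [ht, mem_filter, mem_univ, true_and]
          exact ⟨hxy, hDy, fun h => by simp at h⟩
        by_cases hn : nr y
        · obtain ⟨u, hyu, hDu⟩ := hn
          have h4 : ((S.filter (fun x => G.Adj x.1 y)).image (fun x => x.1)).card <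
              (univ.filter (fun w => G.Adj y w)).card := by
            apply card_lt_card
            refine ⟨h1, fun hsub => ?_⟩
            have h5 := hsub (mem_filter.2 ⟨mem_univ u, hyu⟩)
            rw [mem_image] at h5
            obtain ⟨a, _, rfl⟩ := h5
            exact ((hP a.1).1 a.2).2.1 hDu
          rw [h2, ← dg_eq] at h4
          have h5 := hΔ' y
          have h6 : 1 ≤ ((S.biUnion t).filter (fun z => z.1 = y)).card := card_pos.2 ⟨_, h3⟩
          calc (S.filter (fun x => G.Adj x.1 y)).card ≤ (Δ - 1) * 1 := by omega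
            _ ≤ _ := Nat.mul_le_mul_left _ h6
        · have h4 : (y, true) ∈ (S.biUnion t).filter (fun z => z.1 = y) := by
            rw [mem_filter, mem_biUnion]
            refine ⟨⟨x, hx, ?_⟩, rfl⟩
            simp only [ht, mem_filter, mem_univ, true_and]
            exact ⟨hxy, hDy, fun _ => hn⟩
          have h5 : ({(y, false), (y, true)} : Finset (V × Bool)) ⊆
              (S.biUnion t).filter (fun z => z.1 = y) := by
            intro z hz
            rw [mem_insert, mem_singleton] at hz
            rcases hz with rfl | rfl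
            · exact h3
            · exact h4
          have h6 := card_le_card h5
          rw [card_pair (by simp)] at h6
          have h7 := card_le_card h1
          rw [h2, ← dg_eq] at h7
          have h8 := hΔ' y
          calc (S.filter (fun x => G.Adj x.1 y)).card ≤ (Δ - 1) * 2 := by omega
            _ ≤ _ := Nat.mul_le_mul_left _ h6
      have e3 : ∑ y ∈ N, ((S.biUnion t).filter (fun z => z.1 = y)).card ≤ (S.biUnion t).card := by
        rw [← card_biUnion]
        · apply card_le_card
          intro z hz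
          rw [mem_biUnion] at hz
          obtain ⟨y, _, hz⟩ := hz
          exact (mem_filter.1 hz).1
        · intro a _ b _ hab
          rw [Function.onFun, disjoint_left]
          intro z hz hz'
          exact hab ((mem_filter.1 hz).2.symm.trans (mem_filter.1 hz').2)
      have e4 : (Δ - 1) * S.card ≤ (Δ - 1) * (S.biUnion t).card := by
        calc (Δ - 1) * S.card ≤ ∑ y ∈ N, (S.filter (fun x => G.Adj x.1 y)).card := by
              rw [← e1]; exact e0
          _ ≤ ∑ y ∈ N, (Δ - 1) * ((S.biUnion t).filter (fun z => z.1 = y)).card :=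
              sum_le_sum e2
          _ = (Δ - 1) * ∑ y ∈ N, ((S.biUnion t).filter (fun z => z.1 = y)).card := by
              rw [mul_sum]
          _ ≤ _ := Nat.mul_le_mul_left _ e3
      exact Nat.le_of_mul_le_mul_left e4 (by omega)
  obtain ⟨τ, hτ1, hτ2⟩ := (Finset.all_card_le_biUnion_card_iff_exists_injective t).1 hall
  have hτm : ∀ x, G.Adj x.1 (τ x).1 ∧ ¬ D (τ x).1 ∧ ((τ x).2 = true → ¬ nr (τ x).1) := by
    intro x
    have := hτ2 x
    simpa only [ht, mem_filter, mem_univ, true_and] using this
  refine ⟨fun x => if h : P x then (τ ⟨x, h⟩).1 else x, ?_, ?_, ?_⟩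
  · intro x hx
    simp only [hx, dif_pos]
    exact ⟨(hτm ⟨x, hx⟩).1, (hτm ⟨x, hx⟩).2.1⟩
  · intro x x' x'' hx hx' hx'' h1 h2 h3 h4 h5
    simp only [hx, hx', hx'', dif_pos] at h4 h5
    have e1 : (τ ⟨x, hx⟩).2 ≠ (τ ⟨x', hx'⟩).2 := fun h =>
      h1 (Subtype.ext_iff.1 (hτ1 (Prod.ext h4 h)))
    have e2 : (τ ⟨x, hx⟩).2 ≠ (τ ⟨x'', hx''⟩).2 := fun h =>
      h2 (Subtype.ext_iff.1 (hτ1 (Prod.ext h5 h)))
    have e3 : (τ ⟨x', hx'⟩).2 ≠ (τ ⟨x'', hx''⟩).2 := fun h =>
      h3 (Subtype.ext_iff.1 (hτ1 (Prod.ext (h4.symm.trans h5) h)))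
    revert e1 e2 e3
    cases (τ ⟨x, hx⟩).2 <;> cases (τ ⟨x', hx'⟩).2 <;> cases (τ ⟨x'', hx''⟩).2 <;> simp
  · intro x x' hx hx' h1 h2 u hu hDu
    simp only [hx, hx', dif_pos] at h2 hu
    have e1 : (τ ⟨x, hx⟩).2 ≠ (τ ⟨x', hx'⟩).2 := fun h =>
      h1 (Subtype.ext_iff.1 (hτ1 (Prod.ext h2 h)))
    have e2 : (τ ⟨x, hx⟩).2 = true ∨ (τ ⟨x', hx'⟩).2 = true := by
      revert e1
      cases (τ ⟨x, hx⟩).2 <;> cases (τ ⟨x', hx'⟩).2 <;> simp
    rcases e2 with e2 | e2
    · exact (hτm ⟨x, hx⟩).2.2 e2 ⟨u, hu, hDu⟩
    · apply (hτm ⟨x', hx'⟩).2.2 e2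
      rw [← h2]
      exact ⟨u, hu, hDu⟩

/-- The case of no edges. -/
theorem no_edges {V : Type} [Fintype V] (G H : SimpleGraph V) (hHG : H ≤ G)
    (hΔ : ∀ v, (G.neighborSet v).ncard ≤ 0) {k : ℕ} (f0 : V → Fin k) (g0 : Sym2 V → Fin k) :
    ∃ (f : V → Fin k) (g : Sym2 V → Fin k), IsTotal G f g ∧
      ∀ u v, H.Adj u v → f u = f0 u ∧ g s(u, v) = g0 s(u, v) := by
  have hno : ∀ u v, ¬ G.Adj u v := by
    intro u v huv
    have h1 := hΔ u
    rw [Nat.le_zero, Set.ncard_eq_zero (Set.toFinite _), Set.eq_empty_iff_forall_notMem] at h1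
    exact h1 v huv
  exact ⟨f0, g0, ⟨fun u v huv => absurd huv (hno u v),
    fun u v w huv => absurd huv (hno u v), fun u v huv => absurd huv (hno u v)⟩,
    fun u v huv => absurd (hHG huv) (hno u v)⟩

end Pool.Agent.NH47.TB
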