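import Mathlib
import Pool.Agent.NH47.TotHall

/-!
# Late vertices

A local condition for the extension: every vertex of `X` next to a covered vertex has a late
neighbour, or all its neighbours outside the matching are next to the matching.
-/

set_option autoImplicit false

namespace Pool.Agent.NH47.TB

open Finset Pool.Agent.TH559.LE Pool.Agent.R61.TotExt

/-- The vertices of degree `Δ` of the side `X` outside the matching select neighbours outside the
matching, such that a vertex is selected at most twice, and at most once if it is not late. -/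
theorem select_late {V : Type} [Fintype V] (G H : SimpleGraph V) (Δ : ℕ) (X : V → Prop)
    (hX : ∀ u v, G.Adj u v → (X u ↔ ¬ X v)) (hΔ0 : 1 ≤ Δ)
    (hΔ : ∀ v, (G.neighborSet v).ncard ≤ Δ) (hHG : H ≤ G)
    (hB : ∀ v w z w' z', G.Adj v w → H.Adj w z → G.Adj v w' → H.Adj w' z' →
      s(w, z) = s(w', z'))
    (P : V → Prop) (hP : ∀ x, P x ↔ (X x ∧ (¬ ∃ w, H.Adj x w) ∧ (G.neighborSet x).ncard = Δ))
    (lt : V → Prop)
    (hlt : ∀ x, P x → (∃ u, G.Adj x u ∧ ∃ w, H.Adj u w) →
      (∃ y, G.Adj x y ∧ (¬ ∃ w, H.Adj y w) ∧ lt y) ∨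
      ∀ y, G.Adj x y → (¬ ∃ w, H.Adj y w) → ∃ u, G.Adj y u ∧ ∃ w, H.Adj u w) :
    ∃ σ : V → V, (∀ x, P x → G.Adj x (σ x) ∧ ¬ ∃ w, H.Adj (σ x) w) ∧
      (∀ x x' x'', P x → P x' → P x'' → x ≠ x' → x ≠ x'' → x' ≠ x'' → σ x = σ x' →
        σ x ≠ σ x'') ∧
      ∀ x x', P x → P x' → x ≠ x' → σ x = σ x' → lt (σ x) := by
  classical
  have hΔ' : ∀ v, dg G v ≤ Δ := hΔ
  set D : V → Prop := fun v => ∃ w, H.Adj v w with hD
  set nr : V → Prop := fun v => ∃ u, G.Adj v u ∧ D u with hnr
  set t : {x // P x} → Finset (V × Bool) := fun x =>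
    univ.filter (fun z => G.Adj x.1 z.1 ∧ ¬ D z.1 ∧ (z.2 = true → lt z.1)) with ht
  have htm : ∀ (x : {x // P x}) (y : V) (b : Bool), (y, b) ∈ t x ↔
      (G.Adj x.1 y ∧ ¬ D y ∧ (b = true → lt y)) := by
    intro x y b
    simp only [ht, mem_filter, mem_univ, true_and]
  -- the number of the neighbours of a vertex of `P`
  have hfew0 : ∀ v, P v → ¬ nr v → (univ.filter (fun w => G.Adj v w ∧ ¬ D w)).card = Δ := by
    intro v hv hn
    have hd : dg G v = Δ := ((hP v).1 hv).2.2
    rw [dg_eq] at hd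
    rw [← hd]
    congr 1
    ext w
    simp only [mem_filter, mem_univ, true_and]
    constructor
    · exact fun h => h.1
    · exact fun h => ⟨h, fun hw => hn ⟨w, h, hw⟩⟩
  have hfew : ∀ v, P v → Δ ≤ (univ.filter (fun w => G.Adj v w ∧ ¬ D w)).card + 1 := by
    intro v hv
    have hd : dg G v = Δ := ((hP v).1 hv).2.2
    rw [dg_eq] at hd
    have h1 : (univ.filter (fun w => G.Adj v w ∧ D w)).card ≤ 1 := by
      rw [card_le_one]
      intro a ha b hb
      rw [mem_filter] at ha hb
      obtain ⟨_, ha1, z, hz⟩ := ha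
      obtain ⟨_, hb1, z', hz'⟩ := hb
      have h3 := hB v a z b z' ha1 hz hb1 hz'
      rw [Sym2.eq_iff] at h3
      rcases h3 with h3 | h3
      · exact h3.1
      · exfalso
        have h4 : G.Adj a b := by
          have := hHG hz
          rwa [h3.2] at this
        have e1 := hX v a ha1
        have e2 := hX v b hb1
        have e3 := hX a b h4
        tauto
    have h3 : (univ.filter (fun w => G.Adj v w)) =
        (univ.filter (fun w => G.Adj v w ∧ ¬ D w)) ∪ (univ.filter (fun w => G.Adj v w ∧ D w)) := by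
      ext w
      simp only [mem_union, mem_filter, mem_univ, true_and]
      tauto
    have h4 := card_union_le (univ.filter (fun w => G.Adj v w ∧ ¬ D w))
      (univ.filter (fun w => G.Adj v w ∧ D w))
    rw [← h3] at h4
    omega
  have hall : ∀ S : Finset {x // P x}, S.card ≤ (S.biUnion t).card := by
    intro S
    by_contra hcon
    push Not at hcon
    -- the neighbours
    set N : Finset V := univ.filter (fun y => ¬ D y ∧ ∃ x ∈ S, G.Adj x.1 y) with hN
    have hNm : ∀ y, y ∈ N ↔ ¬ D y ∧ ∃ x ∈ S, G.Adj x.1 y := by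
      intro y
      rw [hN, mem_filter]
      simp
    have hdS : ∀ y, (S.filter (fun x => G.Adj x.1 y)).card ≤ dg G y := by
      intro y
      rw [dg_eq, ← card_image_of_injective (S.filter (fun x => G.Adj x.1 y))
        Subtype.val_injective]
      apply card_le_card
      intro w hw
      rw [mem_image] at hw
      obtain ⟨a, ha, rfl⟩ := hw
      rw [mem_filter] at ha
      exact mem_filter.2 ⟨mem_univ _, ha.2.symm⟩
    have hdS' : ∀ y, nr y → (S.filter (fun x => G.Adj x.1 y)).card + 1 ≤ dg G y := by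
      rintro y ⟨u, hyu, hDu⟩
      rw [dg_eq, ← card_image_of_injective (S.filter (fun x => G.Adj x.1 y))
        Subtype.val_injective, Nat.add_one_le_iff]
      apply card_lt_card
      refine ⟨?_, fun hsub => ?_⟩
      · intro w hw
        rw [mem_image] at hw
        obtain ⟨a, ha, rfl⟩ := hw
        rw [mem_filter] at ha
        exact mem_filter.2 ⟨mem_univ _, ha.2.symm⟩
      · have h5 := hsub (mem_filter.2 ⟨mem_univ u, hyu⟩)
        rw [mem_image] at h5
        obtain ⟨a, _, rfl⟩ := h5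
        exact ((hP a.1).1 a.2).2.1 hDu
    -- the number of selectable pairs
    have c1 : N.card + (N.filter lt).card ≤ (S.biUnion t).card := by
      have h1 : ((N.image (fun y => (y, false))) ∪ ((N.filter lt).image (fun y => (y, true)))) ⊆
          S.biUnion t := by
        intro z hz
        rw [mem_union, mem_image, mem_image] at hz
        rw [mem_biUnion]
        rcases hz with ⟨y, hy, rfl⟩ | ⟨y, hy, rfl⟩
        · obtain ⟨h2, x, hx, hxy⟩ := (hNm y).1 hy
          exact ⟨x, hx, (htm x y false).2 ⟨hxy, h2, fun h => by simp at h⟩⟩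
        · rw [mem_filter] at hy
          obtain ⟨h2, x, hx, hxy⟩ := (hNm y).1 hy.1
          exact ⟨x, hx, (htm x y true).2 ⟨hxy, h2, fun _ => hy.2⟩⟩
      have h2 := card_le_card h1
      rw [card_union_of_disjoint, card_image_of_injective, card_image_of_injective] at h2
      · exact h2
      · intro a b h
        exact (Prod.mk.inj h).1
      · intro a b h
        exact (Prod.mk.inj h).1
      · rw [disjoint_left]
        intro z hz hz'
        rw [mem_image] at hz hz'
        obtain ⟨y, _, rfl⟩ := hz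
        obtain ⟨y', _, h⟩ := hz'
        simp at h
    -- counting edges
    have c2 : ∑ x ∈ S, (N.filter (fun y => G.Adj x.1 y)).card =
        ∑ y ∈ N, (S.filter (fun x => G.Adj x.1 y)).card := by
      simp_rw [card_filter]
      exact sum_comm
    have hNx : ∀ x ∈ S, (N.filter (fun y => G.Adj x.1 y)) =
        univ.filter (fun w => G.Adj x.1 w ∧ ¬ D w) := by
      intro x hx
      ext w
      rw [mem_filter, hNm, mem_filter]
      constructor
      · rintro ⟨⟨h1, _⟩, h2⟩
        exact ⟨mem_univ _, h2, h1⟩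
      · rintro ⟨_, h1, h2⟩
        exact ⟨⟨h2, x, hx, h1⟩, h1⟩
    have c3 : Δ * S.card ≤ ∑ x ∈ S, (N.filter (fun y => G.Adj x.1 y)).card +
        (S.filter (fun x => nr x.1)).card := by
      rw [card_filter, ← sum_add_distrib, mul_comm, ← smul_eq_mul, ← sum_const]
      apply sum_le_sum
      intro x hx
      rw [hNx x hx]
      by_cases hn : nr x.1
      · rw [if_pos hn]
        exact hfew x.1 x.2
      · rw [if_neg hn, hfew0 x.1 x.2 hn]
        omega
    have c4 : ∑ y ∈ N, (S.filter (fun x => G.Adj x.1 y)).card + (N.filter nr).card ≤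
        Δ * N.card := by
      rw [card_filter, ← sum_add_distrib, mul_comm, ← smul_eq_mul, ← sum_const]
      apply sum_le_sum
      intro y _
      have h1 := hΔ' y
      by_cases hn : nr y
      · rw [if_pos hn]
        have h2 := hdS' y hn
        omega
      · rw [if_neg hn]
        have h2 := hdS y
        omega
    -- the vertices of `S` next to the matching
    have c5 : (S.filter (fun x => nr x.1)).card ≤ Δ * (N.filter lt).card +
        (S.filter (fun x => nr x.1 ∧ ∀ y, G.Adj x.1 y → ¬ D y → nr y)).card := by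
      have h1 : (S.filter (fun x => nr x.1)) ⊆
          ((N.filter lt).biUnion (fun y => S.filter (fun x => G.Adj x.1 y))) ∪
          (S.filter (fun x => nr x.1 ∧ ∀ y, G.Adj x.1 y → ¬ D y → nr y)) := by
        intro x hx
        rw [mem_filter] at hx
        rw [mem_union]
        rcases hlt x.1 x.2 hx.2 with ⟨y, hxy, hDy, hy⟩ | h
        · left
          rw [mem_biUnion]
          exact ⟨y, mem_filter.2 ⟨(hNm y).2 ⟨hDy, x, hx.1, hxy⟩, hy⟩,
            mem_filter.2 ⟨hx.1, hxy⟩⟩
        · right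
          exact mem_filter.2 ⟨hx.1, hx.2, h⟩
      refine (card_le_card h1).trans ((card_union_le _ _).trans ?_)
      apply Nat.add_le_add_right
      refine card_biUnion_le.trans ?_
      rw [mul_comm, ← smul_eq_mul, ← sum_const]
      apply sum_le_sum
      intro y _
      exact (hdS y).trans (hΔ' y)
    rcases Nat.lt_or_ge Δ 2 with hΔ2 | hΔ2
    · -- `Δ = 1`
      have hno : (S.filter (fun x => nr x.1)).card = 0 := by
        rw [card_eq_zero, filter_eq_empty_iff]
        rintro x _ ⟨u, hxu, w, hw⟩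
        have h3 : ({x.1, w} : Finset V) ⊆ univ.filter (fun z => G.Adj u z) := by
          intro z hz
          rw [mem_insert, mem_singleton] at hz
          rw [mem_filter]
          rcases hz with rfl | rfl
          · exact ⟨mem_univ _, hxu.symm⟩
          · exact ⟨mem_univ _, hHG hw⟩
        have h4 := card_le_card h3
        rw [← dg_eq, card_pair] at h4
        · have := hΔ' u
          omega
        · rintro rfl
          exact ((hP x.1).1 x.2).2.1 ⟨u, hw.symm⟩
      have hΔ1 : Δ = 1 := by omega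
      subst hΔ1
      omega
    · have c6 : (S.filter (fun x => nr x.1 ∧ ∀ y, G.Adj x.1 y → ¬ D y → nr y)).card ≤
          (N.filter nr).card := by
        set S' := S.filter (fun x => nr x.1 ∧ ∀ y, G.Adj x.1 y → ¬ D y → nr y) with hS'
        have e1 : ∑ x ∈ S', ((N.filter nr).filter (fun y => G.Adj x.1 y)).card =
            ∑ y ∈ N.filter nr, (S'.filter (fun x => G.Adj x.1 y)).card := by
          simp_rw [card_filter]
          exact sum_comm
        have e2 : (Δ - 1) * S'.card ≤
            ∑ x ∈ S', ((N.filter nr).filter (fun y => G.Adj x.1 y)).card := by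
          rw [mul_comm, ← smul_eq_mul, ← sum_const]
          apply sum_le_sum
          intro x hx
          have hx' := mem_filter.1 hx
          have h1 := hfew x.1 x.2
          have h2 : (univ.filter (fun w => G.Adj x.1 w ∧ ¬ D w)) ⊆
              (N.filter nr).filter (fun y => G.Adj x.1 y) := by
            intro w hw
            rw [mem_filter] at hw
            rw [mem_filter, mem_filter, hNm]
            exact ⟨⟨⟨hw.2.2, x, hx'.1, hw.2.1⟩, hx'.2.2 w hw.2.1 hw.2.2⟩, hw.2.1⟩
          have h3 := card_le_card h2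
          omega
        have e3 : ∑ y ∈ N.filter nr, (S'.filter (fun x => G.Adj x.1 y)).card ≤
            (Δ - 1) * (N.filter nr).card := by
          rw [mul_comm, ← smul_eq_mul, ← sum_const]
          apply sum_le_sum
          intro y hy
          have hy' := mem_filter.1 hy
          have h1 := hdS' y hy'.2
          have h2 := hΔ' y
          have h3 : (S'.filter (fun x => G.Adj x.1 y)).card ≤
              (S.filter (fun x => G.Adj x.1 y)).card :=
            card_le_card (filter_subset_filter _ (filter_subset _ _))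
          omega
        exact Nat.le_of_mul_le_mul_left ((e2.trans (le_of_eq e1)).trans e3) (by omega)
      have c7 : Δ * (N.card + (N.filter lt).card + 1) ≤ Δ * S.card :=
        Nat.mul_le_mul_left _ (by omega)
      have c8 : Δ * (N.card + (N.filter lt).card + 1) =
          Δ * N.card + Δ * (N.filter lt).card + Δ := by ring
      omega
  obtain ⟨τ, hτ1, hτ2⟩ := (Finset.all_card_le_biUnion_card_iff_exists_injective t).1 hall
  have hτm : ∀ x, G.Adj x.1 (τ x).1 ∧ ¬ D (τ x).1 ∧ ((τ x).2 = true → lt (τ x).1) := by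
    intro x
    have := hτ2 x
    simpa only [ht, mem_filter, mem_univ, true_and] using this
  refine ⟨fun x => if h : P x then (τ ⟨x, h⟩).1 else x, ?_, ?_, ?_⟩
  · intro x hx
    simp only [hx, dif_pos]
    exact ⟨(hτm ⟨x, hx⟩).1, (hτm ⟨x, hx⟩).2.1⟩
  · intro x x' x'' hx hx' hx'' h1 h2 h3 h4 h5
    simp only [hx, hx', hx'', dif_pos] at h4 h5
    have e1 : (τ ⟨x, hx⟩).2 ≠ (τ ⟨x', hx'⟩).2 := fun h =>
      h1 (Subtype.ext_iff.1 (hτ1 (Prod.ext h4 h)))
    have e2 : (τ ⟨x, hx⟩).2 ≠ (τ ⟨x'', hx''⟩).2 := fun h =>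
      h2 (Subtype.ext_iff.1 (hτ1 (Prod.ext h5 h)))
    have e3 : (τ ⟨x', hx'⟩).2 ≠ (τ ⟨x'', hx''⟩).2 := fun h =>
      h3 (Subtype.ext_iff.1 (hτ1 (Prod.ext (h4.symm.trans h5) h)))
    revert e1 e2 e3
    cases (τ ⟨x, hx⟩).2 <;> cases (τ ⟨x', hx'⟩).2 <;> cases (τ ⟨x'', hx''⟩).2 <;> simp
  · intro x x' hx hx' h1 h2
    simp only [hx, hx', dif_pos] at h2 ⊢
    have e1 : (τ ⟨x, hx⟩).2 ≠ (τ ⟨x', hx'⟩).2 := fun h =>
      h1 (Subtype.ext_iff.1 (hτ1 (Prod.ext h2 h)))
    have e2 : (τ ⟨x, hx⟩).2 = true ∨ (τ ⟨x', hx'⟩).2 = true := by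
      revert e1
      cases (τ ⟨x, hx⟩).2 <;> cases (τ ⟨x', hx'⟩).2 <;> simp
    rcases e2 with e2 | e2
    · exact (hτm ⟨x, hx⟩).2.2 e2
    · rw [h2]
      exact (hτm ⟨x', hx'⟩).2.2 e2

/-- The extension theorem with a local condition. -/
theorem late_ext {V : Type} [Fintype V] (G H : SimpleGraph V) (Δ : ℕ) (X : V → Prop)
    (hX : ∀ u v, G.Adj u v → (X u ↔ ¬ X v)) (hΔ0 : 1 ≤ Δ)
    (hΔ : ∀ v, (G.neighborSet v).ncard ≤ Δ) (hHG : H ≤ G)
    (hmatch : ∀ u v w, H.Adj u v → H.Adj u w → v = w)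
    (hdist : ∀ u v x y, H.Adj u v → H.Adj x y → s(u, v) ≠ s(x, y) → 3 ≤ G.edist u x)
    (f0 : V → Fin (Δ + 2)) (g0 : Sym2 V → Fin (Δ + 2)) (h0 : IsTotal H f0 g0)
    (α : V → Fin (Δ + 2))
    (hα1 : ∀ x u, X x → (¬ ∃ w, H.Adj x w) → G.Adj x u → (∃ w, H.Adj u w) → α x ≠ f0 u)
    (hα2 : ∀ x y u w, X x → (¬ ∃ w, H.Adj x w) → (¬ ∃ w, H.Adj y w) → G.Adj x y → G.Adj y u →
      H.Adj u w → α x ≠ g0 s(u, w))
    (hlt : ∀ x u w, X x → (¬ ∃ w, H.Adj x w) → (G.neighborSet x).ncard = Δ → G.Adj x u →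
      H.Adj u w →
      (∃ y, G.Adj x y ∧ (¬ ∃ w, H.Adj y w) ∧ ∀ z, G.Adj y z → (¬ ∃ w, H.Adj z w) ∧ α z = α x) ∨
      ∀ y, G.Adj x y → (¬ ∃ w, H.Adj y w) → ∃ u, G.Adj y u ∧ ∃ w, H.Adj u w) :
    ∃ (f : V → Fin (Δ + 2)) (g : Sym2 V → Fin (Δ + 2)), IsTotal G f g ∧
      ∀ u v, H.Adj u v → f u = f0 u ∧ g s(u, v) = g0 s(u, v) := by
  obtain ⟨σ, hσ1, hσ2, hσ3⟩ := select_late G H Δ X hX hΔ0 hΔ hHG (near_two G H hdist)
    (fun x => X x ∧ (¬ ∃ w, H.Adj x w) ∧ (G.neighborSet x).ncard = Δ) (fun x => Iff.rfl)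
    (fun y => ∀ z z', G.Adj y z → G.Adj y z' → (¬ ∃ w, H.Adj z w) ∧ α z = α z') (by
      rintro x ⟨hx1, hx2, hx3⟩ ⟨u, hxu, w, hw⟩
      rcases hlt x u w hx1 hx2 hx3 hxu hw with ⟨y, h1, h2, h3⟩ | h
      · left
        exact ⟨y, h1, h2, fun z z' hz hz' => ⟨(h3 z hz).1, (h3 z hz).2.trans (h3 z' hz').2.symm⟩⟩
      · exact Or.inr h)
  refine main G H Δ X hX hΔ0 hΔ hHG hmatch hdist f0 g0 h0 α σ hα1 hα2
    (fun x => X x ∧ (¬ ∃ w, H.Adj x w) ∧ (G.neighborSet x).ncard = Δ) (fun x => Iff.rfl)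
    hσ1 hσ2 ?_
  intro x x' hx hx' h1 h2 u hu
  exact hσ3 x x' hx hx' h1 h2 u x hu (hσ1 x hx).1.symm

end Pool.Agent.NH47.TB
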