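import Mathlib
import Pool.Agent.NH47.TotMain
import Pool.Agent.TH559.LE.Bkw

/-!
# One colour on the precoloured edges
-/

set_option autoImplicit false

namespace Pool.Agent.NH47.TB

open Finset Pool.Agent.TH559.LE Pool.Agent.R61.TotExt

/-- A maximal matching outside a matching `H`: the vertices that are covered neither by `H` nor by
the new matching are pairwise not adjacent. -/
theorem maximal_matching {V : Type} [Fintype V] (G H : SimpleGraph V) :
    ∃ M : SimpleGraph V, M ≤ G ∧ (∀ u v w, M.Adj u v → M.Adj u w → v = w) ∧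
      (∀ u v w, M.Adj u v → ¬ H.Adj u w) ∧
      ∀ u v, G.Adj u v → (∃ w, M.Adj u w ∨ H.Adj u w) ∨ (∃ w, M.Adj v w ∨ H.Adj v w) := by
  classical
  have hfin : {M : SimpleGraph V | M ≤ G ∧ (∀ u v w, M.Adj u v → M.Adj u w → v = w) ∧
      (∀ u v w, M.Adj u v → ¬ H.Adj u w)}.Finite := Set.toFinite _
  obtain ⟨M, hM, hmax⟩ := hfin.exists_maximal ⟨⊥, bot_le, fun u v w h => absurd h (by simp),
    fun u v w h => absurd h (by simp)⟩
  obtain ⟨h1, h2, h3⟩ := hM
  refine ⟨M, h1, h2, h3, ?_⟩
  intro u v huv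
  by_contra hcon
  push Not at hcon
  obtain ⟨hu, hv⟩ := hcon
  let C : SimpleGraph V :=
    { Adj := fun a b => M.Adj a b ∨ (a = u ∧ b = v) ∨ (a = v ∧ b = u)
      symm := ⟨fun a b h => by
        rcases h with h | h | h
        · exact Or.inl h.symm
        · exact Or.inr (Or.inr ⟨h.2, h.1⟩)
        · exact Or.inr (Or.inl ⟨h.2, h.1⟩)⟩
      loopless := ⟨fun a h => by
        rcases h with h | h | h
        · exact M.loopless.irrefl a h
        · exact huv.ne (h.1.symm.trans h.2)
        · exact huv.ne (h.2.symm.trans h.1)⟩ }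
  have hC : ∀ a b, C.Adj a b ↔ M.Adj a b ∨ (a = u ∧ b = v) ∨ (a = v ∧ b = u) :=
    fun _ _ => Iff.rfl
  have hMC : M ≤ C := fun a b h => Or.inl h
  have h4 := hmax (y := C) ⟨?_, ?_, ?_⟩ hMC
  · exact (hu v).1 (h4 ((hC u v).2 (Or.inr (Or.inl ⟨rfl, rfl⟩))))
  · intro a b h
    rcases (hC a b).1 h with h | ⟨rfl, rfl⟩ | ⟨rfl, rfl⟩
    · exact h1 h
    · exact huv
    · exact huv.symm
  · intro a b c hab hac
    rcases (hC a b).1 hab with k1 | ⟨k1, k2⟩ | ⟨k1, k2⟩
    · rcases (hC a c).1 hac with k3 | ⟨k3, _⟩ | ⟨k3, _⟩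
      · exact h2 a b c k1 k3
      · rw [k3] at k1
        exact absurd k1 (hu b).1
      · rw [k3] at k1
        exact absurd k1 (hv b).1
    · rcases (hC a c).1 hac with k3 | ⟨_, k4⟩ | ⟨k3, _⟩
      · rw [k1] at k3
        exact absurd k3 (hu c).1
      · rw [k2, k4]
      · exact absurd (k1.symm.trans k3) huv.ne
    · rcases (hC a c).1 hac with k3 | ⟨k3, _⟩ | ⟨_, k4⟩
      · rw [k1] at k3
        exact absurd k3 (hv c).1
      · exact absurd (k3.symm.trans k1) huv.ne
      · rw [k2, k4]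
  · intro a b c hab hac
    rcases (hC a b).1 hab with hab | ⟨rfl, rfl⟩ | ⟨rfl, rfl⟩
    · exact h3 a b c hab hac
    · exact (hu c).2 hac
    · exact (hv c).2 hac

/-- Four different elements that are different from a given one. -/
theorem four_others {K : ℕ} (hK : 5 ≤ K) (γ : Fin K) : ∃ p q r s : Fin K,
    p ≠ γ ∧ q ≠ γ ∧ r ≠ γ ∧ s ≠ γ ∧ p ≠ q ∧ p ≠ r ∧ p ≠ s ∧ q ≠ r ∧ q ≠ s ∧ r ≠ s := by
  have hcard : 4 ≤ ((univ : Finset (Fin K)).erase γ).card := by
    rw [card_erase_of_mem (mem_univ _), card_univ, Fintype.card_fin]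
    omega
  obtain ⟨T, hT, hT4⟩ := exists_subset_card_eq hcard
  obtain ⟨p, q, r, s, h1, h2, h3, h4, h5, h6, rfl⟩ := card_eq_four.1 hT4
  have hγ : ∀ a ∈ ({p, q, r, s} : Finset (Fin K)), a ≠ γ := fun a ha => (mem_erase.1 (hT ha)).1
  exact ⟨p, q, r, s, hγ p (by simp), hγ q (by simp), hγ r (by simp), hγ s (by simp),
    h1, h2, h3, h4, h5, h6⟩

/-- The extension theorem for a single colour on the edges. -/
theorem one_colour {V : Type} [Fintype V] (G H : SimpleGraph V) (Δ : ℕ) (X : V → Prop)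
    (hX : ∀ u v, G.Adj u v → (X u ↔ ¬ X v)) (hΔ3 : 3 ≤ Δ)
    (hΔ : ∀ v, (G.neighborSet v).ncard ≤ Δ) (hHG : H ≤ G)
    (hmatch : ∀ u v w, H.Adj u v → H.Adj u w → v = w)
    (hdist : ∀ u v x y, H.Adj u v → H.Adj x y → s(u, v) ≠ s(x, y) → 3 ≤ G.edist u x)
    (f0 : V → Fin (Δ + 2)) (g0 : Sym2 V → Fin (Δ + 2)) (h0 : IsTotal H f0 g0)
    (γ : Fin (Δ + 2)) (hγ : ∀ u v, H.Adj u v → g0 s(u, v) = γ) :
    ∃ (f : V → Fin (Δ + 2)) (g : Sym2 V → Fin (Δ + 2)), IsTotal G f g ∧
      ∀ u v, H.Adj u v → f u = f0 u ∧ g s(u, v) = g0 s(u, v) := by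
  classical
  have hΔ' : ∀ v, dg G v ≤ Δ := hΔ
  have hA := near_one G H hdist
  have hB := near_two G H hdist
  obtain ⟨M, hMG, hMm, hMH, hMmax⟩ := maximal_matching G H
  obtain ⟨p, q, r, s, hp, hq, hr, hs, hpq, hpr, hps, hqr, hqs, hrs⟩ :=
    four_others (K := Δ + 2) (by omega) γ
  set D : V → Prop := fun v => ∃ w, H.Adj v w with hD
  set C : V → Prop := fun v => ∃ w, M.Adj v w ∨ H.Adj v w with hC
  -- a vertex outside the matching has at most one neighbour in it
  have hone : ∀ v w w', G.Adj v w → D w → G.Adj v w' → D w' → w = w' := by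
    rintro v w w' hvw ⟨z, hz⟩ hvw' ⟨z', hz'⟩
    have h3 := hB v w z w' z' hvw hz hvw' hz'
    rw [Sym2.eq_iff] at h3
    rcases h3 with h3 | h3
    · exact h3.1
    · exfalso
      have h4 : G.Adj w w' := by
        have := hHG hz
        rwa [h3.2] at this
      have e1 := hX v w hvw
      have e2 := hX v w' hvw'
      have e3 := hX w w' h4
      tauto
  -- the colours of the vertices that are covered by the new matching
  have hpal : ∀ v, ∃ c : Fin (Δ + 2), (X v → c = p ∨ c = q) ∧ (¬ X v → c = r ∨ c = s) ∧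
      ∀ w, G.Adj v w → D w → c ≠ f0 w := by
    intro v
    by_cases hex : ∃ w, G.Adj v w ∧ D w
    · obtain ⟨w, hvw, hDw⟩ := hex
      by_cases hXv : X v
      · by_cases hpw : f0 w = p
        · refine ⟨q, fun _ => Or.inr rfl, fun h => absurd hXv h, ?_⟩
          intro w' hvw' hDw'
          rw [← hone v w w' hvw hDw hvw' hDw', hpw]
          exact hpq.symm
        · refine ⟨p, fun _ => Or.inl rfl, fun h => absurd hXv h, ?_⟩
          intro w' hvw' hDw'
          rw [← hone v w w' hvw hDw hvw' hDw']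
          exact fun h => hpw h.symm
      · by_cases hrw : f0 w = r
        · refine ⟨s, fun h => absurd h hXv, fun _ => Or.inr rfl, ?_⟩
          intro w' hvw' hDw'
          rw [← hone v w w' hvw hDw hvw' hDw', hrw]
          exact hrs.symm
        · refine ⟨r, fun h => absurd h hXv, fun _ => Or.inl rfl, ?_⟩
          intro w' hvw' hDw'
          rw [← hone v w w' hvw hDw hvw' hDw']
          exact fun h => hrw h.symm
    · by_cases hXv : X v
      · exact ⟨p, fun _ => Or.inl rfl, fun h => absurd hXv h,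
          fun w h1 h2 => absurd ⟨w, h1, h2⟩ hex⟩
      · exact ⟨r, fun h => absurd h hXv, fun _ => Or.inl rfl,
          fun w h1 h2 => absurd ⟨w, h1, h2⟩ hex⟩
  choose pal hpal1 hpal2 hpal3 using hpal
  set f : V → Fin (Δ + 2) := fun v => if D v then f0 v else if C v then pal v else γ with hf
  have hfD : ∀ v, D v → f v = f0 v := fun v h => by simp only [hf]; rw [if_pos h]
  have hfC : ∀ v, ¬ D v → C v → f v = pal v := fun v h1 h2 => by
    simp only [hf]; rw [if_neg h1, if_pos h2]
  have hfN : ∀ v, ¬ C v → f v = γ := fun v h1 => by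
    have h2 : ¬ D v := fun ⟨w, hw⟩ => h1 ⟨w, Or.inr hw⟩
    simp only [hf]; rw [if_neg h2, if_neg h1]
  have hfγ : ∀ v, C v → f v ≠ γ := by
    intro v hv
    by_cases hDv : D v
    · rw [hfD v hDv]
      obtain ⟨w, hw⟩ := hDv
      rw [← hγ v w hw]
      exact (h0.2.2 v w hw).symm
    · rw [hfC v hDv hv]
      by_cases hXv : X v
      · rcases hpal1 v hXv with h | h <;> rw [h] <;> assumption
      · rcases hpal2 v hXv with h | h <;> rw [h] <;> assumption
  have hhalf : ∀ u v, G.Adj u v → X u → f u ≠ f v := by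
    intro u v huv hXu
    have hXv : ¬ X v := (hX u v huv).1 hXu
    by_cases hCu : C u
    · by_cases hCv : C v
      · by_cases hDu : D u
        · by_cases hDv : D v
          · rw [hfD u hDu, hfD v hDv]
            exact h0.1 u v (hA u v huv hDu hDv)
          · rw [hfD u hDu, hfC v hDv hCv]
            exact (hpal3 v u huv.symm hDu).symm
        · by_cases hDv : D v
          · rw [hfC u hDu hCu, hfD v hDv]
            exact hpal3 u v huv hDv
          · rw [hfC u hDu hCu, hfC v hDv hCv]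
            rcases hpal1 u hXu with h | h <;> rcases hpal2 v hXv with h' | h' <;>
              rw [h, h'] <;> assumption
      · rw [hfN v hCv]
        exact hfγ u hCu
    · have hCv : C v := (hMmax u v huv).resolve_left hCu
      rw [hfN u hCu]
      exact (hfγ v hCv).symm
  have hprop : ∀ u v, G.Adj u v → f u ≠ f v := by
    intro u v huv
    by_cases hXu : X u
    · exact hhalf u v huv hXu
    · have hXv : X v := by
        by_contra h
        exact hXu ((hX u v huv).2 h)
      exact (hhalf v u huv.symm hXv).symm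
  -- the remaining edges
  set E : Finset (V × V) := univ.filter (fun e => X e.1 ∧ G.Adj e.1 e.2 ∧ ¬ H.Adj e.1 e.2 ∧
    ¬ M.Adj e.1 e.2) with hE
  have hEm : ∀ x y, (x, y) ∈ E ↔ X x ∧ G.Adj x y ∧ ¬ H.Adj x y ∧ ¬ M.Adj x y := by
    intro x y
    simp [hE]
  have hrow0 : ∀ x, (E.filter (fun e => e.1 = x)).card ≤
      (univ.filter (fun w => G.Adj x w ∧ ¬ H.Adj x w ∧ ¬ M.Adj x w)).card := by
    intro x
    apply card_le_card_of_injOn (fun e => e.2)
    · rintro ⟨a, b⟩ he
      have he' := mem_filter.1 (mem_coe.1 he)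
      rw [hEm] at he'
      obtain ⟨h1, h2⟩ := he'
      simp only at h2
      subst h2
      exact mem_coe.2 (mem_filter.2 ⟨mem_univ _, h1.2⟩)
    · rintro ⟨a, b⟩ he ⟨c, d⟩ hf' hef
      have he' := mem_filter.1 (mem_coe.1 he)
      have hf'' := mem_filter.1 (mem_coe.1 hf')
      exact Prod.ext (he'.2.trans hf''.2.symm) hef
  have hcol0 : ∀ y, (E.filter (fun e => e.2 = y)).card ≤
      (univ.filter (fun w => G.Adj y w ∧ ¬ H.Adj y w ∧ ¬ M.Adj y w)).card := by
    intro y
    apply card_le_card_of_injOn (fun e => e.1)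
    · rintro ⟨a, b⟩ he
      have he' := mem_filter.1 (mem_coe.1 he)
      rw [hEm] at he'
      obtain ⟨h1, h2⟩ := he'
      simp only at h2
      subst h2
      exact mem_coe.2 (mem_filter.2 ⟨mem_univ _, h1.2.1.symm, fun h => h1.2.2.1 h.symm,
        fun h => h1.2.2.2 h.symm⟩)
    · rintro ⟨a, b⟩ he ⟨c, d⟩ hf' hef
      have he' := mem_filter.1 (mem_coe.1 he)
      have hf'' := mem_filter.1 (mem_coe.1 hf')
      exact Prod.ext hef (he'.2.trans hf''.2.symm)
  have hdeg : ∀ v, (univ.filter (fun w => G.Adj v w ∧ ¬ H.Adj v w ∧ ¬ M.Adj v w)).card +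
      (if C v then 1 else 0) ≤ Δ := by
    intro v
    have h1 := hΔ' v
    rw [dg_eq] at h1
    by_cases hCv : C v
    · rw [if_pos hCv]
      obtain ⟨w, hw⟩ := hCv
      have hGw : G.Adj v w := by
        rcases hw with hw | hw
        · exact hMG hw
        · exact hHG hw
      have h2 : (univ.filter (fun w => G.Adj v w ∧ ¬ H.Adj v w ∧ ¬ M.Adj v w)).card <
          (univ.filter (fun w => G.Adj v w)).card := by
        apply card_lt_card
        refine ⟨?_, fun hsub => ?_⟩
        · intro z hz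
          rw [mem_filter] at hz
          exact mem_filter.2 ⟨mem_univ _, hz.2.1⟩
        · have h3 := hsub (mem_filter.2 ⟨mem_univ w, hGw⟩)
          rw [mem_filter] at h3
          rcases hw with hw | hw
          · exact h3.2.2.2 hw
          · exact h3.2.2.1 hw
      omega
    · rw [if_neg hCv]
      refine le_trans ?_ h1
      apply card_le_card
      intro z hz
      rw [mem_filter] at hz
      exact mem_filter.2 ⟨mem_univ _, hz.2.1⟩
  set L : V × V → Finset ℕ := fun e => (range (Δ + 2)).filter (fun n =>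
    n ≠ γ.1 ∧ n ≠ (f e.1).1 ∧ n ≠ (f e.2).1) with hL
  have hLc : ∀ e : V × V, Δ + 2 ≤ (L e).card + ({γ.1, (f e.1).1, (f e.2).1} : Finset ℕ).card := by
    intro e
    have h1 : range (Δ + 2) ⊆ L e ∪ {γ.1, (f e.1).1, (f e.2).1} := by
      intro n hn
      rw [mem_union]
      by_contra hcon
      push Not at hcon
      simp only [mem_insert, mem_singleton, not_or, hL, mem_filter] at hcon
      exact hcon.1 ⟨hn, hcon.2.1, hcon.2.2.1, hcon.2.2.2⟩
    have h2 := card_le_card h1
    rw [card_range] at h2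
    exact h2.trans (card_union_le _ _)
  obtain ⟨φ, hφ⟩ := bkw E L (by
    rintro ⟨x, y⟩ he
    have he' := (hEm x y).1 he
    have h1 := hLc (x, y)
    simp only at h1
    have hx := hdeg x
    have hy := hdeg y
    have hx0 := hrow0 x
    have hy0 := hcol0 y
    simp only
    have h3 : ({γ.1, (f x).1, (f y).1} : Finset ℕ).card ≤ 3 := card_le_three
    rcases hMmax x y he'.2.1 with hC' | hC'
    · rw [if_pos (show C x from hC')] at hx
      by_cases hCy : C y
      · rw [if_pos hCy] at hy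
        apply max_le <;> omega
      · rw [if_neg hCy] at hy
        have h4 : ({γ.1, (f x).1, (f y).1} : Finset ℕ).card ≤ 2 := by
          rw [hfN y hCy]
          have : ({γ.1, (f x).1, γ.1} : Finset ℕ) = {γ.1, (f x).1} := by
            ext z
            simp only [mem_insert, mem_singleton]
            tauto
          rw [this]
          exact card_le_two
        apply max_le <;> omega
    · rw [if_pos (show C y from hC')] at hy
      by_cases hCx : C x
      · rw [if_pos hCx] at hx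
        apply max_le <;> omega
      · rw [if_neg hCx] at hx
        have h4 : ({γ.1, (f x).1, (f y).1} : Finset ℕ).card ≤ 2 := by
          rw [hfN x hCx]
          have : ({γ.1, γ.1, (f y).1} : Finset ℕ) = {γ.1, (f y).1} := by
            ext z
            simp only [mem_insert, mem_singleton]
            tauto
          rw [this]
          exact card_le_two
        apply max_le <;> omega)
  have hφL : ∀ x y, (x, y) ∈ E → ∃ h : φ (x, y) < Δ + 2, (⟨φ (x, y), h⟩ : Fin (Δ + 2)) ≠ γ ∧
      (⟨φ (x, y), h⟩ : Fin (Δ + 2)) ≠ f x ∧ (⟨φ (x, y), h⟩ : Fin (Δ + 2)) ≠ f y := by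
    intro x y he
    have h1 := (hφ _ he).1
    simp only [hL, mem_filter, mem_range] at h1
    refine ⟨h1.1, ?_, ?_, ?_⟩
    · exact fun h => h1.2.1 (congrArg Fin.val h)
    · exact fun h => h1.2.2.1 (congrArg Fin.val h)
    · exact fun h => h1.2.2.2 (congrArg Fin.val h)
  -- the colouring of the edges
  set g : Sym2 V → Fin (Δ + 2) := fun z =>
    if h : ∃ e : V × V, e ∈ E ∧ z = s(e.1, e.2) then
      ⟨φ (Classical.choose h), by
        obtain ⟨h1, _⟩ := Classical.choose_spec h
        exact (hφL _ _ h1).1⟩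
    else γ with hg
  have hgE : ∀ x y, (x, y) ∈ E → (g s(x, y)).1 = φ (x, y) := by
    intro x y hxy
    have h1 := (hEm x y).1 hxy
    have hex : ∃ e : V × V, e ∈ E ∧ s(x, y) = s(e.1, e.2) := ⟨(x, y), hxy, rfl⟩
    simp only [hg]
    rw [dif_pos hex]
    simp only
    have h2 := Classical.choose_spec hex
    congr 1
    generalize Classical.choose hex = e at h2
    obtain ⟨h3, h4⟩ := h2
    obtain ⟨a, b⟩ := e
    have h5 := (hEm a b).1 h3
    simp only [Sym2.eq_iff] at h4
    rcases h4 with ⟨rfl, rfl⟩ | ⟨rfl, rfl⟩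
    · rfl
    · exact absurd h5.1 ((hX x y h1.2.1).1 h1.1)
  have hgN : ∀ u v, H.Adj u v ∨ M.Adj u v → g s(u, v) = γ := by
    intro u v huv
    simp only [hg]
    rw [dif_neg]
    rintro ⟨⟨a, b⟩, h1, h2⟩
    have h3 := (hEm a b).1 h1
    simp only [Sym2.eq_iff] at h2
    rcases h2 with ⟨rfl, rfl⟩ | ⟨rfl, rfl⟩
    · rcases huv with h | h
      · exact h3.2.2.1 h
      · exact h3.2.2.2 h
    · rcases huv with h | h
      · exact h3.2.2.1 h.symm
      · exact h3.2.2.2 h.symm
  have horient : ∀ u v, G.Adj u v → ¬ (H.Adj u v ∨ M.Adj u v) →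
      (X u ∧ (u, v) ∈ E) ∨ (¬ X u ∧ (v, u) ∈ E) := by
    intro u v huv hn
    push Not at hn
    by_cases hXu : X u
    · exact Or.inl ⟨hXu, (hEm u v).2 ⟨hXu, huv, hn.1, hn.2⟩⟩
    · right
      refine ⟨hXu, (hEm v u).2 ⟨?_, huv.symm, fun h => hn.1 h.symm, fun h => hn.2 h.symm⟩⟩
      by_contra h
      exact hXu ((hX u v huv).2 h)
  have hgne : ∀ u v, G.Adj u v → ¬ (H.Adj u v ∨ M.Adj u v) → g s(u, v) ≠ γ ∧
      g s(u, v) ≠ f u := by
    intro u v huv hn
    rcases horient u v huv hn with ⟨_, h1⟩ | ⟨_, h1⟩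
    · obtain ⟨h2, h3, h4, h5⟩ := hφL _ _ h1
      have h6 : g s(u, v) = ⟨φ (u, v), h2⟩ := Fin.ext (hgE u v h1)
      rw [h6]
      exact ⟨h3, h4⟩
    · obtain ⟨h2, h3, h4, h5⟩ := hφL _ _ h1
      have h6 : g s(v, u) = ⟨φ (v, u), h2⟩ := Fin.ext (hgE v u h1)
      rw [Sym2.eq_swap, h6]
      exact ⟨h3, h5⟩
  refine ⟨f, g, ⟨hprop, ?_, ?_⟩, ?_⟩
  · intro u v w huv huw hne
    by_cases h1 : H.Adj u v ∨ M.Adj u v
    · by_cases h2 : H.Adj u w ∨ M.Adj u w
      · exfalso
        rcases h1 with h1 | h1 <;> rcases h2 with h2 | h2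
        · exact hne (hmatch u v w h1 h2)
        · exact hMH u w v h2 h1
        · exact hMH u v w h1 h2
        · exact hne (hMm u v w h1 h2)
      · rw [hgN u v h1]
        exact (hgne u w huw h2).1.symm
    · by_cases h2 : H.Adj u w ∨ M.Adj u w
      · rw [hgN u w h2]
        exact (hgne u v huv h1).1
      · rcases horient u v huv h1 with ⟨hXu, h3⟩ | ⟨hXu, h3⟩
        · rcases horient u w huw h2 with ⟨_, h4⟩ | ⟨h5, _⟩
          · intro heq
            have h6 := congrArg Fin.val heq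
            rw [hgE u v h3, hgE u w h4] at h6
            exact (hφ _ h4).2 _ h3 (fun h => hne (Prod.mk.inj h).2) (Or.inl rfl) h6
          · exact absurd hXu h5
        · rcases horient u w huw h2 with ⟨h5, _⟩ | ⟨_, h4⟩
          · exact absurd h5 hXu
          · rw [Sym2.eq_swap, Sym2.eq_swap (a := u) (b := w)]
            intro heq
            have h6 := congrArg Fin.val heq
            rw [hgE v u h3, hgE w u h4] at h6
            exact (hφ _ h4).2 _ h3 (fun h => hne (Prod.mk.inj h).1) (Or.inr rfl) h6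
  · intro u v huv
    by_cases h1 : H.Adj u v ∨ M.Adj u v
    · rw [hgN u v h1]
      apply (hfγ u ?_).symm
      rcases h1 with h1 | h1
      · exact ⟨v, Or.inr h1⟩
      · exact ⟨v, Or.inl h1⟩
    · exact (hgne u v huv h1).2
  · intro u v huv
    exact ⟨hfD u ⟨v, huv⟩, by rw [hgN u v (Or.inl huv), hγ u v huv]⟩

end Pool.Agent.NH47.TB
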